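import Mathlib

/-!
# Spanning connected subgraphs of maximal degree three: reducible vertices (helper546)
-/

set_option autoImplicit false
set_option linter.unusedSectionVars false

namespace Pool.Agent.R546.HC

open Finset Classical

variable {V : Type} [Fintype V]

/-- degree -/
noncomputable def dg (R : SimpleGraph V) (v : V) : ℕ := (univ.filter (fun w => R.Adj v w)).card

/-- number of neighbours in `B` -/
noncomputable def dgIn (R : SimpleGraph V) (B : Finset V) (v : V) : ℕ :=
  (univ.filter (fun w => R.Adj v w ∧ w ∈ B)).card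

/-- connected on `X` -/
def ConnOn (R : SimpleGraph V) (X : Finset V) : Prop :=
  (∀ a b, R.Adj a b → a ∈ X ∧ b ∈ X) ∧ ∀ a ∈ X, ∀ b ∈ X, R.Reachable a b

/-- deletion of the vertices of `B` -/
def del (T : SimpleGraph V) (B : Finset V) : SimpleGraph V where
  Adj a b := T.Adj a b ∧ a ∉ B ∧ b ∉ B
  symm := ⟨fun _ _ h => ⟨h.1.symm, h.2.2, h.2.1⟩⟩
  loopless := ⟨fun _ h => h.1.ne rfl⟩

theorem del_mono {T : SimpleGraph V} {B B' : Finset V} (h : B' ⊆ B) : del T B ≤ del T B' :=
  fun _ _ hab => ⟨hab.1, fun h1 => hab.2.1 (h h1), fun h1 => hab.2.2 (h h1)⟩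

/-- `u` is reducible: its component in `T` minus `B` can be reconnected so that the degree of `u` is at
most two, all degrees at most three -/
def Red (H T : SimpleGraph V) (B : Finset V) (u : V) : Prop :=
  ∃ R : SimpleGraph V, R ≤ H ∧
    (∀ a b, R.Adj a b → (del T B).Reachable u a ∧ (del T B).Reachable u b) ∧
    (∀ a, (del T B).Reachable u a → R.Reachable u a) ∧
    (∀ a, (del T B).Reachable u a → dg R a + dgIn T B a ≤ 3) ∧
    dg R u + dgIn T B u ≤ 2

theorem dg_del (T : SimpleGraph V) (B : Finset V) (a : V) :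
    dg (del T B) a + dgIn T B a ≤ dg T a := by
  unfold dg dgIn
  rw [← Finset.card_union_of_disjoint]
  · apply Finset.card_le_card
    intro w hw
    simp only [mem_union, mem_filter, mem_univ, true_and] at hw ⊢
    rcases hw with hw | hw
    · exact hw.1
    · exact hw.1
  · rw [Finset.disjoint_left]
    intro w hw hw'
    simp only [mem_filter, mem_univ, true_and] at hw hw'
    exact hw.2.2 hw'.2

theorem dg_mono {R R' : SimpleGraph V} (h : R ≤ R') (a : V) : dg R a ≤ dg R' a := by
  unfold dg
  apply Finset.card_le_card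
  intro w hw
  simp only [mem_filter, mem_univ, true_and] at hw ⊢
  exact h hw

theorem dg_le_of (R : SimpleGraph V) (a : V) (S : Finset V) (h : ∀ b, R.Adj a b → b ∈ S) :
    dg R a ≤ S.card := by
  unfold dg
  apply Finset.card_le_card
  intro w hw
  simp only [mem_filter, mem_univ, true_and] at hw
  exact h w hw

theorem dg_le_dg {R R' : SimpleGraph V} (a : V) (h : ∀ b, R.Adj a b → R'.Adj a b) :
    dg R a ≤ dg R' a := by
  unfold dg
  apply Finset.card_le_card
  intro w hw
  simp only [mem_filter, mem_univ, true_and] at hw ⊢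
  exact h w hw

/-- the restriction of a graph to a component -/
def rst (R : SimpleGraph V) (Q : V → Prop) : SimpleGraph V where
  Adj a b := R.Adj a b ∧ Q a ∧ Q b
  symm := ⟨fun _ _ h => ⟨h.1.symm, h.2.2, h.2.1⟩⟩
  loopless := ⟨fun _ h => h.1.ne rfl⟩

theorem reach_of_forall {R R' : SimpleGraph V} {Q : V → Prop}
    (h : ∀ a b, R.Adj a b → Q a → Q b ∧ R'.Reachable a b) {u : V} (hu : Q u) {a : V}
    (ha : R.Reachable u a) : R'.Reachable u a := by
  obtain ⟨p⟩ := ha
  have key : ∀ (x y : V) (p : R.Walk x y), Q x → R'.Reachable x y := by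
    intro x y p
    induction p with
    | nil => intro _; exact SimpleGraph.Reachable.refl _
    | cons hab _ ih =>
      intro hx
      obtain ⟨h1, h2⟩ := h _ _ hab hx
      exact h2.trans (ih h1)
  exact key _ _ p hu

/-- the base: vertices of small degree are reducible -/
theorem red_base {H T : SimpleGraph V} (hTH : T ≤ H) (hT : ∀ v, dg T v ≤ 3) {B : Finset V} {u : V}
    (hu : dg T u ≤ 2) : Red H T B u := by
  refine ⟨rst (del T B) (fun a => (del T B).Reachable u a), ?_, ?_, ?_, ?_, ?_⟩
  · intro a b h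
    exact hTH h.1.1
  · intro a b h
    exact h.2
  · intro a ha
    refine reach_of_forall (R := del T B) (Q := fun a => (del T B).Reachable u a) ?_
      (SimpleGraph.Reachable.refl _) ha
    intro x y hxy hx
    have hy : (del T B).Reachable u y := hx.trans hxy.reachable
    refine ⟨hy, SimpleGraph.Adj.reachable ?_⟩
    exact ⟨hxy, hx, hy⟩
  · intro a _
    have h1 := dg_del T B a
    have h2 := dg_mono (R := rst (del T B) (fun a => (del T B).Reachable u a)) (R' := del T B)
      (fun _ _ h => h.1) a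
    have h3 := hT a
    omega
  · have h1 := dg_del T B u
    have h2 := dg_mono (R := rst (del T B) (fun a => (del T B).Reachable u a)) (R' := del T B)
      (fun _ _ h => h.1) u
    omega

/-- reducibility is preserved when `B` shrinks -/
theorem red_mono {H T : SimpleGraph V} (hTH : T ≤ H) (hT : ∀ v, dg T v ≤ 3) {B B' : Finset V} {w : V}
    (hB : B' ⊆ B) (hw : w ∉ B) (h : Red H T B w) : Red H T B' w := by
  obtain ⟨R, h1, h2, h3, h4, h5⟩ := h
  set Q : V → Prop := fun a => (del T B).Reachable w a with hQ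
  have hQB : ∀ a, Q a → a ∉ B := by
    intro a ha
    by_cases haw : w = a
    · rw [← haw]; exact hw
    · obtain ⟨p⟩ := ha.symm
      cases p with
      | nil => exact absurd rfl haw
      | cons hab _ => exact hab.2.1
  have hQadj : ∀ a b, Q a → T.Adj a b → b ∉ B → Q b := by
    intro a b ha hab hb
    exact SimpleGraph.Reachable.trans ha (SimpleGraph.Adj.reachable (G := del T B) ⟨hab, hQB a ha, hb⟩)
  let R' : SimpleGraph V :=
    { Adj := fun a b => (Q a ∧ Q b ∧ R.Adj a b) ∨
        (¬ (Q a ∧ Q b) ∧ (del T B').Adj a b ∧ (del T B').Reachable w a ∧ (del T B').Reachable w b)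
      symm := ⟨by
        rintro a b (⟨ha, hb, hab⟩ | ⟨hn, hab, ha, hb⟩)
        · exact Or.inl ⟨hb, ha, hab.symm⟩
        · exact Or.inr ⟨fun h => hn ⟨h.2, h.1⟩, hab.symm, hb, ha⟩⟩
      loopless := ⟨by
        rintro a (⟨_, _, hab⟩ | ⟨_, hab, _⟩)
        · exact hab.ne rfl
        · exact hab.ne rfl⟩ }
  have hmono : ∀ a, Q a → (del T B').Reachable w a := fun a ha => ha.mono (del_mono hB)
  -- degree of the vertices of Q
  have hdeg : ∀ a, Q a → dg R' a + dgIn T B' a ≤ dg R a + dgIn T B a := by
    intro a ha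
    have e1 : dg R' a ≤ dg R a + (univ.filter (fun b => T.Adj a b ∧ b ∈ B ∧ b ∉ B')).card := by
      unfold dg
      refine le_trans (Finset.card_le_card ?_) (Finset.card_union_le _ _)
      intro b hb
      simp only [mem_union, mem_filter, mem_univ, true_and] at hb ⊢
      rcases hb with ⟨_, _, hab⟩ | ⟨hn, hab, _⟩
      · exact Or.inl hab
      · right
        refine ⟨hab.1, ?_, hab.2.2⟩
        by_contra hbB
        exact hn ⟨ha, hQadj a b ha hab.1 hbB⟩
    have e2 : (univ.filter (fun b => T.Adj a b ∧ b ∈ B ∧ b ∉ B')).card + dgIn T B' a ≤ dgIn T B a := by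
      unfold dgIn
      rw [← Finset.card_union_of_disjoint]
      · apply Finset.card_le_card
        intro b hb
        simp only [mem_union, mem_filter, mem_univ, true_and] at hb ⊢
        rcases hb with hb | hb
        · exact ⟨hb.1, hb.2.1⟩
        · exact ⟨hb.1, hB hb.2⟩
      · rw [Finset.disjoint_left]
        intro b hb hb'
        simp only [mem_filter, mem_univ, true_and] at hb hb'
        exact hb.2.2 hb'.2
    omega
  refine ⟨R', ?_, ?_, ?_, ?_, ?_⟩
  · rintro a b (⟨_, _, hab⟩ | ⟨_, hab, _⟩)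
    · exact h1 hab
    · exact hTH hab.1
  · rintro a b (⟨ha, hb, _⟩ | ⟨_, _, ha, hb⟩)
    · exact ⟨hmono a ha, hmono b hb⟩
    · exact ⟨ha, hb⟩
  · have hRR' : ∀ a, Q a → R'.Reachable w a := by
      intro a ha
      refine (h3 a ha).mono ?_
      intro x y hxy
      obtain ⟨hx, hy⟩ := h2 x y hxy
      exact Or.inl ⟨hx, hy, hxy⟩
    intro a ha
    refine reach_of_forall (R := del T B') (Q := fun a => (del T B').Reachable w a) ?_
      (SimpleGraph.Reachable.refl _) ha
    intro x y hxy hx
    have hy : (del T B').Reachable w y := hx.trans hxy.reachable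
    refine ⟨hy, ?_⟩
    by_cases hQ2 : Q x ∧ Q y
    · exact (hRR' x hQ2.1).symm.trans (hRR' y hQ2.2)
    · exact SimpleGraph.Adj.reachable (G := R') (Or.inr ⟨hQ2, hxy, hx, hy⟩)
  · intro a ha
    by_cases hQa : Q a
    · have := hdeg a hQa
      have := h4 a hQa
      omega
    · have e1 : dg R' a ≤ dg (del T B') a := by
        unfold dg
        apply Finset.card_le_card
        intro b hb
        simp only [mem_filter, mem_univ, true_and] at hb ⊢
        rcases hb with ⟨hx, _, _⟩ | ⟨_, hab, _⟩
        · exact absurd hx hQa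
        · exact hab
      have e2 := dg_del T B' a
      have e3 := hT a
      omega
  · have := hdeg w (SimpleGraph.Reachable.refl _)
    omega

/-- decomposition of a path at a vertex -/
theorem path_split {T : SimpleGraph V} {u v : V} (p : T.Walk u v) (hp : p.IsPath) (x : V)
    (hx : x ∈ p.support) (hxu : x ≠ u) :
    ∃ (y : V) (q0 : T.Walk u y) (q2 : T.Walk x v), T.Adj y x ∧ x ∉ q0.support ∧ y ∉ q2.support ∧
      (∀ w ∈ q0.support, w ∈ p.support) ∧ (∀ w ∈ q2.support, w ∈ p.support) := by
  induction p with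
  | nil =>
    simp at hx
    exact absurd hx hxu
  | @cons u w v h p' ih =>
    rw [SimpleGraph.Walk.cons_isPath_iff] at hp
    by_cases hxw : x = w
    · subst hxw
      refine ⟨u, SimpleGraph.Walk.nil, p', h, ?_, hp.2, ?_, ?_⟩
      · simpa using hxu
      · intro w hw
        simp at hw
        subst hw
        simp
      · intro w hw
        simp [hw]
    · have hx' : x ∈ p'.support := by
        simp only [SimpleGraph.Walk.support_cons, List.mem_cons] at hx
        rcases hx with hx | hx
        · exact absurd hx hxu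
        · exact hx
      obtain ⟨y, q0, q2, h1, h2, h3, h4, h5⟩ := ih hp.1 hx' hxw
      refine ⟨y, SimpleGraph.Walk.cons h q0, q2, h1, ?_, h3, ?_, ?_⟩
      · simp only [SimpleGraph.Walk.support_cons, List.mem_cons, not_or]
        exact ⟨hxu, h2⟩
      · intro w hw
        simp only [SimpleGraph.Walk.support_cons, List.mem_cons] at hw ⊢
        rcases hw with hw | hw
        · exact Or.inl hw
        · exact Or.inr (h4 w hw)
      · intro w hw
        simp only [SimpleGraph.Walk.support_cons, List.mem_cons]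
        exact Or.inr (h5 w hw)

theorem not_mem_of_reach {T : SimpleGraph V} {B : Finset V} {u a : V} (hu : u ∉ B)
    (h : (del T B).Reachable u a) : a ∉ B := by
  by_cases hua : u = a
  · rw [← hua]; exact hu
  · obtain ⟨p⟩ := h.symm
    cases p with
    | nil => exact absurd rfl hua
    | cons hab _ => exact hab.2.1

/-- the exchange step -/
theorem red_step {H T : SimpleGraph V} (hTH : T ≤ H) (hT : ∀ v, dg T v ≤ 3) {B : Finset V}
    {u v : V} (hu : u ∉ B) (hv : v ∉ B) (huv : H.Adj u v) (hnr : ¬ (del T B).Reachable u v)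
    (p : T.Walk u v) (hp : p.IsPath) (hRu : Red H T B u) (hRv : Red H T B v) {x : V}
    (hxB : x ∈ B) (hxp : x ∈ p.support) :
    Red H T (B.filter (fun w => w ∉ p.support)) x := by
  set B' := B.filter (fun w => w ∉ p.support) with hB'
  have hBB : B' ⊆ B := Finset.filter_subset _ _
  have hpB : ∀ w ∈ p.support, w ∉ B' := by
    intro w hw h
    rw [hB', mem_filter] at h
    exact h.2 hw
  have hxu : x ≠ u := fun h => hu (h ▸ hxB)
  have hxv : x ≠ v := fun h => hv (h ▸ hxB)
  obtain ⟨y, q0, q2, hyx, hx0, hy2, hs0, hs2⟩ := path_split p hp x hxp hxu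
  have hxB' : x ∉ B' := hpB x hxp
  have hyp : y ∈ p.support := hs0 y q0.end_mem_support
  have hyB' : y ∉ B' := hpB y hyp
  have hyx' : y ≠ x := hyx.ne
  obtain ⟨Ru, u1, u2, u3, u4, u5⟩ := hRu
  obtain ⟨Rv, v1, v2, v3, v4, v5⟩ := hRv
  set Qu : V → Prop := fun a => (del T B).Reachable u a with hQu
  set Qv : V → Prop := fun a => (del T B).Reachable v a with hQv
  have hQuB : ∀ a, Qu a → a ∉ B := fun a ha => not_mem_of_reach hu ha
  have hQvB : ∀ a, Qv a → a ∉ B := fun a ha => not_mem_of_reach hv ha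
  have hdisj : ∀ a, Qu a → Qv a → False := fun a ha hb => hnr (SimpleGraph.Reachable.trans ha (SimpleGraph.Reachable.symm hb))
  have hQuadj : ∀ a b, Qu a → T.Adj a b → b ∉ B → Qu b := by
    intro a b ha hab hb
    exact SimpleGraph.Reachable.trans ha (SimpleGraph.Adj.reachable (G := del T B) ⟨hab, hQuB a ha, hb⟩)
  have hQvadj : ∀ a b, Qv a → T.Adj a b → b ∉ B → Qv b := by
    intro a b ha hab hb
    exact SimpleGraph.Reachable.trans ha (SimpleGraph.Adj.reachable (G := del T B) ⟨hab, hQvB a ha, hb⟩)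
  -- the graph without the edge y x
  let E : SimpleGraph V :=
    { Adj := fun a b => (del T B').Adj a b ∧ ¬ ((a = y ∧ b = x) ∨ (a = x ∧ b = y))
      symm := ⟨fun a b h => ⟨h.1.symm, fun h' => h.2 (by
        rcases h' with ⟨h1, h2⟩ | ⟨h1, h2⟩
        · exact Or.inr ⟨h2, h1⟩
        · exact Or.inl ⟨h2, h1⟩)⟩⟩
      loopless := ⟨fun a h => h.1.ne rfl⟩ }
  have walkE : ∀ (z : V) (hz : z = x ∨ z = y) (a b : V) (q : T.Walk a b),
      (∀ w ∈ q.support, w ∉ B') → z ∉ q.support → E.Reachable a b := by
    intro z hz a b q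
    induction q with
    | nil => intro _ _; exact SimpleGraph.Reachable.refl _
    | @cons a c b hac q' ih =>
      intro h1 h2
      have hc : c ∈ (SimpleGraph.Walk.cons hac q').support := by simp
      have ha : a ∈ (SimpleGraph.Walk.cons hac q').support := by simp
      have h3 : E.Adj a c := by
        refine ⟨⟨hac, h1 a ha, h1 c hc⟩, ?_⟩
        rintro (⟨r1, r2⟩ | ⟨r1, r2⟩)
        · rcases hz with rfl | rfl
          · exact h2 (r2 ▸ hc)
          · exact h2 (r1 ▸ ha)
        · rcases hz with rfl | rfl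
          · exact h2 (r1 ▸ ha)
          · exact h2 (r2 ▸ hc)
      refine h3.reachable.trans (ih (fun w hw => h1 w (by simp [hw])) (fun hz' => h2 (by simp [hz'])))
  have hEuy : E.Reachable u y := walkE x (Or.inl rfl) _ _ q0 (fun w hw => hpB w (hs0 w hw)) hx0
  have hExv : E.Reachable x v := walkE y (Or.inr rfl) _ _ q2 (fun w hw => hpB w (hs2 w hw)) hy2
  have hEdel : E ≤ del T B' := fun a b h => h.1
  set Q' : V → Prop := fun a => (del T B').Reachable x a with hQ'
  have hxy' : (del T B').Adj x y := ⟨hyx.symm, hxB', hyB'⟩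
  have hQ'u : Q' u := (hxy'.reachable).trans (hEuy.mono hEdel).symm
  have hQ'v : Q' v := hExv.mono hEdel
  have hmu : ∀ a, Qu a → Q' a := fun a ha => SimpleGraph.Reachable.trans hQ'u
    (SimpleGraph.Reachable.mono (del_mono hBB) ha)
  have hmv : ∀ a, Qv a → Q' a := fun a ha => SimpleGraph.Reachable.trans hQ'v
    (SimpleGraph.Reachable.mono (del_mono hBB) ha)
  let R' : SimpleGraph V :=
    { Adj := fun a b => (Qu a ∧ Qu b ∧ Ru.Adj a b) ∨ (Qv a ∧ Qv b ∧ Rv.Adj a b) ∨
        (¬ (Qu a ∧ Qu b) ∧ ¬ (Qv a ∧ Qv b) ∧ E.Adj a b ∧ Q' a ∧ Q' b) ∨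
        ((a = u ∧ b = v) ∨ (a = v ∧ b = u))
      symm := ⟨by
        rintro a b (⟨ha, hb, hab⟩ | ⟨ha, hb, hab⟩ | ⟨hn, hn', hab, ha, hb⟩ | (⟨ha, hb⟩ | ⟨ha, hb⟩))
        · exact Or.inl ⟨hb, ha, hab.symm⟩
        · exact Or.inr (Or.inl ⟨hb, ha, hab.symm⟩)
        · exact Or.inr (Or.inr (Or.inl ⟨fun h => hn ⟨h.2, h.1⟩, fun h => hn' ⟨h.2, h.1⟩, hab.symm, hb, ha⟩))
        · exact Or.inr (Or.inr (Or.inr (Or.inr ⟨hb, ha⟩)))
        · exact Or.inr (Or.inr (Or.inr (Or.inl ⟨hb, ha⟩)))⟩
      loopless := ⟨by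
        rintro a (⟨_, _, hab⟩ | ⟨_, _, hab⟩ | ⟨_, _, hab, _⟩ | (⟨ha, hb⟩ | ⟨ha, hb⟩))
        · exact hab.ne rfl
        · exact hab.ne rfl
        · exact hab.ne rfl
        · exact huv.ne (ha.symm.trans hb)
        · exact huv.ne (hb.symm.trans ha)⟩ }
  -- counting of the neighbours in B
  have hsplit : ∀ a, (univ.filter (fun b => T.Adj a b ∧ b ∈ B ∧ b ∉ B')).card + dgIn T B' a ≤
      dgIn T B a := by
    intro a
    unfold dgIn
    rw [← Finset.card_union_of_disjoint]
    · apply Finset.card_le_card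
      intro b hb
      simp only [mem_union, mem_filter, mem_univ, true_and] at hb ⊢
      rcases hb with hb | hb
      · exact ⟨hb.1, hb.2.1⟩
      · exact ⟨hb.1, hBB hb.2⟩
    · rw [Finset.disjoint_left]
      intro b hb hb'
      simp only [mem_filter, mem_univ, true_and] at hb hb'
      exact hb.2.2 hb'.2
  have hdegu : ∀ a, Qu a → dg R' a + dgIn T B' a ≤ dg Ru a + dgIn T B a + (if a = u then 1 else 0) := by
    intro a ha
    have e1 : dg R' a ≤ (dg Ru a + (univ.filter (fun b => T.Adj a b ∧ b ∈ B ∧ b ∉ B')).card) +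
        (if a = u then 1 else 0) := by
      have e0 : ∀ b, R'.Adj a b → b ∈ (univ.filter (fun b => Ru.Adj a b) ∪
          univ.filter (fun b => T.Adj a b ∧ b ∈ B ∧ b ∉ B')) ∪ (if a = u then {v} else ∅) := by
        intro b hb
        simp only [mem_union, mem_filter, mem_univ, true_and]
        rcases hb with ⟨_, _, hab⟩ | ⟨hxa, _, _⟩ | ⟨hn, _, hab, _⟩ | (⟨h1, h2⟩ | ⟨h1, h2⟩)
        · exact Or.inl (Or.inl hab)
        · exact (hdisj a ha hxa).elim
        · left; right
          refine ⟨hab.1.1, ?_, hab.1.2.2⟩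
          by_contra hbB
          exact hn ⟨ha, hQuadj a b ha hab.1.1 hbB⟩
        · right
          rw [if_pos h1, h2]
          simp
        · exfalso
          rw [h1] at ha
          exact hnr ha
      refine le_trans (dg_le_of R' a _ e0) (le_trans (Finset.card_union_le _ _) ?_)
      refine add_le_add (Finset.card_union_le _ _) ?_
      split_ifs <;> simp
    have := hsplit a
    omega
  have hdegv : ∀ a, Qv a → dg R' a + dgIn T B' a ≤ dg Rv a + dgIn T B a + (if a = v then 1 else 0) := by
    intro a ha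
    have e1 : dg R' a ≤ (dg Rv a + (univ.filter (fun b => T.Adj a b ∧ b ∈ B ∧ b ∉ B')).card) +
        (if a = v then 1 else 0) := by
      have e0 : ∀ b, R'.Adj a b → b ∈ (univ.filter (fun b => Rv.Adj a b) ∪
          univ.filter (fun b => T.Adj a b ∧ b ∈ B ∧ b ∉ B')) ∪ (if a = v then {u} else ∅) := by
        intro b hb
        simp only [mem_union, mem_filter, mem_univ, true_and]
        rcases hb with ⟨hxa, _, _⟩ | ⟨_, _, hab⟩ | ⟨_, hn, hab, _⟩ | (⟨h1, h2⟩ | ⟨h1, h2⟩)
        · exact (hdisj a hxa ha).elim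
        · exact Or.inl (Or.inl hab)
        · left; right
          refine ⟨hab.1.1, ?_, hab.1.2.2⟩
          by_contra hbB
          exact hn ⟨ha, hQvadj a b ha hab.1.1 hbB⟩
        · exfalso
          rw [h1] at ha
          exact hnr (SimpleGraph.Reachable.symm ha)
        · right
          rw [if_pos h1, h2]
          simp
      refine le_trans (dg_le_of R' a _ e0) (le_trans (Finset.card_union_le _ _) ?_)
      refine add_le_add (Finset.card_union_le _ _) ?_
      split_ifs <;> simp
    have := hsplit a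
    omega
  have hother : ∀ a, ¬ Qu a → ¬ Qv a → ∀ b, R'.Adj a b → E.Adj a b := by
    intro a h1 h2 b hb
    rcases hb with ⟨hxa, _, _⟩ | ⟨hxa, _, _⟩ | ⟨_, _, hab, _⟩ | (⟨h3, h4⟩ | ⟨h3, h4⟩)
    · exact absurd hxa h1
    · exact absurd hxa h2
    · exact hab
    · exact absurd (show Qu a by rw [h3]) h1
    · exact absurd (show Qv a by rw [h3]) h2
  have hRuR : Ru ≤ R' := fun a b hab => Or.inl ⟨(u2 a b hab).1, (u2 a b hab).2, hab⟩
  have hRvR : Rv ≤ R' := fun a b hab => Or.inr (Or.inl ⟨(v2 a b hab).1, (v2 a b hab).2, hab⟩)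
  have hER : ∀ a b, E.Adj a b → Q' a → Q' b ∧ R'.Reachable a b := by
    intro a b hab ha
    have hb : Q' b := SimpleGraph.Reachable.trans ha (SimpleGraph.Adj.reachable (hEdel hab))
    refine ⟨hb, ?_⟩
    by_cases h1 : Qu a ∧ Qu b
    · exact ((u3 a h1.1).mono hRuR).symm.trans ((u3 b h1.2).mono hRuR)
    by_cases h2 : Qv a ∧ Qv b
    · exact ((v3 a h2.1).mono hRvR).symm.trans ((v3 b h2.2).mono hRvR)
    exact SimpleGraph.Adj.reachable (G := R') (Or.inr (Or.inr (Or.inl ⟨h1, h2, hab, ha, hb⟩)))
  have hRxv : R'.Reachable x v := reach_of_forall hER (SimpleGraph.Reachable.refl _) hExv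
  have hRuy : R'.Reachable u y := reach_of_forall hER hQ'u hEuy
  have hRvu : R'.Reachable v u := SimpleGraph.Adj.reachable (G := R')
    (Or.inr (Or.inr (Or.inr (Or.inr ⟨rfl, rfl⟩))))
  have hRxy : R'.Reachable x y := (hRxv.trans hRvu).trans hRuy
  have hall : ∀ a, Q' a → R'.Reachable x a := by
    intro a ha
    have h1 : E.Reachable x a ∨ E.Reachable y a := by
      obtain ⟨q⟩ := ha
      have key : ∀ (c d : V) (q : (del T B').Walk c d), (E.Reachable x c ∨ E.Reachable y c) →
          (E.Reachable x d ∨ E.Reachable y d) := by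
        intro c d q
        induction q with
        | nil => intro h; exact h
        | @cons c d _ hcd _ ih =>
          intro h
          apply ih
          by_cases hE : E.Adj c d
          · rcases h with h | h
            · exact Or.inl (h.trans hE.reachable)
            · exact Or.inr (h.trans hE.reachable)
          · have h3 : (c = y ∧ d = x) ∨ (c = x ∧ d = y) := by
              by_contra h4
              exact hE ⟨hcd, h4⟩
            rcases h3 with ⟨_, h3⟩ | ⟨_, h3⟩
            · left; rw [h3]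
            · right; rw [h3]
      exact key _ _ q (Or.inl (SimpleGraph.Reachable.refl _))
    rcases h1 with h1 | h1
    · exact reach_of_forall hER (SimpleGraph.Reachable.refl _) h1
    · exact hRxy.trans (reach_of_forall hER hxy'.reachable h1)
  have hxQu : ¬ Qu x := fun h => hQuB x h hxB
  have hxQv : ¬ Qv x := fun h => hQvB x h hxB
  refine ⟨R', ?_, ?_, hall, ?_, ?_⟩
  · rintro a b (⟨_, _, hab⟩ | ⟨_, _, hab⟩ | ⟨_, _, hab, _⟩ | (⟨ha, hb⟩ | ⟨ha, hb⟩))
    · exact u1 hab
    · exact v1 hab
    · exact hTH hab.1.1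
    · rw [ha, hb]; exact huv
    · rw [ha, hb]; exact huv.symm
  · rintro a b (⟨ha, hb, _⟩ | ⟨ha, hb, _⟩ | ⟨_, _, _, ha, hb⟩ | (⟨ha, hb⟩ | ⟨ha, hb⟩))
    · exact ⟨hmu a ha, hmu b hb⟩
    · exact ⟨hmv a ha, hmv b hb⟩
    · exact ⟨ha, hb⟩
    · rw [ha, hb]; exact ⟨hQ'u, hQ'v⟩
    · rw [ha, hb]; exact ⟨hQ'v, hQ'u⟩
  · intro a _
    by_cases h1 : Qu a
    · have h2 := hdegu a h1
      by_cases h3 : a = u
      · rw [if_pos h3] at h2
        rw [h3] at h2 ⊢
        omega
      · rw [if_neg h3] at h2
        have := u4 a h1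
        omega
    by_cases h1' : Qv a
    · have h2 := hdegv a h1'
      by_cases h3 : a = v
      · rw [if_pos h3] at h2
        rw [h3] at h2 ⊢
        omega
      · rw [if_neg h3] at h2
        have := v4 a h1'
        omega
    · have h2 : dg R' a ≤ dg E a := dg_le_dg a (hother a h1 h1')
      have h3 := dg_mono hEdel a
      have h4 := dg_del T B' a
      have h5 := hT a
      omega
  · have h2 : dg R' x ≤ dg E x := dg_le_dg x (hother x hxQu hxQv)
    have h3 : dg E x + 1 ≤ dg (del T B') x := by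
      have h4 : dg E x ≤ ((univ.filter (fun b => (del T B').Adj x b)).erase y).card := by
        apply dg_le_of
        intro b hb
        simp only [mem_filter, mem_univ, true_and, mem_erase]
        exact ⟨fun h => hb.2 (Or.inr ⟨rfl, h⟩), hb.1⟩
      have hy : y ∈ univ.filter (fun b => (del T B').Adj x b) := by
        simp only [mem_filter, mem_univ, true_and]
        exact hxy'
      have h5 := Finset.card_erase_add_one hy
      have h6 : dg (del T B') x = (univ.filter (fun b => (del T B').Adj x b)).card := rfl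
      omega
    have h4 := dg_del T B' x
    have h5 := hT x
    omega

end Pool.Agent.R546.HC
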