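import Mathlib
import Pool.Agent.R546.HC.Red

/-!
# Spanning connected subgraphs of maximal degree three (helper546)
-/

set_option autoImplicit false
set_option linter.unusedSectionVars false

namespace Pool.Agent.R546.HC

open Finset Classical

variable {V : Type} [Fintype V]

/-- the number of edges leaving `W` -/
noncomputable def bd (H : SimpleGraph V) (W : Finset V) : ℕ :=
  ((univ : Finset (V × V)).filter (fun e => e.1 ∈ W ∧ e.2 ∉ W ∧ H.Adj e.1 e.2)).card

theorem exists_parent (R : SimpleGraph V) (X : Finset V) (hR : ConnOn R X) (r : V) (hr : r ∈ X) :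
    ∃ (p : V → V) (δ : V → ℕ), ∀ v ∈ X, v ≠ r → p v ∈ X ∧ R.Adj v (p v) ∧ δ (p v) < δ v := by
  have h : ∀ v, ∃ w, v ∈ X → v ≠ r → w ∈ X ∧ R.Adj v w ∧ R.dist w r < R.dist v r := by
    intro v
    by_cases hv : v ∈ X ∧ v ≠ r
    · obtain ⟨hv, hvr⟩ := hv
      obtain ⟨q, hq⟩ := (hR.2 v hv r hr).exists_walk_length_eq_dist
      cases q with
      | nil => exact absurd rfl hvr
      | @cons _ w _ hvw q =>
        refine ⟨w, fun _ _ => ⟨(hR.1 _ _ hvw).2, hvw, ?_⟩⟩
        rw [← hq, SimpleGraph.Walk.length_cons]
        exact Nat.lt_succ_of_le (SimpleGraph.dist_le q)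
    · exact ⟨v, fun h1 h2 => absurd ⟨h1, h2⟩ hv⟩
  choose p hp using h
  exact ⟨p, fun v => R.dist v r, fun v hv hvr => hp v hv hvr⟩

/-- the tree of a parent function -/
def ptree (X : Finset V) (r : V) (p : V → V) (δ : V → ℕ)
    (h : ∀ v ∈ X, v ≠ r → δ (p v) < δ v) : SimpleGraph V where
  Adj a b := (a ∈ X ∧ a ≠ r ∧ p a = b) ∨ (b ∈ X ∧ b ≠ r ∧ p b = a)
  symm := ⟨fun _ _ h => h.symm⟩
  loopless := ⟨by
    rintro a (⟨h1, h2, h3⟩ | ⟨h1, h2, h3⟩)
    · have := h a h1 h2
      rw [h3] at this
      exact lt_irrefl _ this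
    · have := h a h1 h2
      rw [h3] at this
      exact lt_irrefl _ this⟩

/-- extension to a new vertex -/
theorem extend {H T : SimpleGraph V} {X B : Finset V} (hTH : T ≤ H) (hT : ∀ v, dg T v ≤ 3)
    (hTX : ConnOn T X) {u z : V} (hu : u ∈ X) (huB : u ∉ B) (hz : z ∉ X) (huz : H.Adj u z)
    (hred : Red H T B u) :
    ∃ R' : SimpleGraph V, R' ≤ H ∧ ConnOn R' (insert z X) ∧ ∀ v, dg R' v ≤ 3 := by
  obtain ⟨R, h1, h2, h3, h4, h5⟩ := hred
  set Q : V → Prop := fun a => (del T B).Reachable u a with hQ
  have hQB : ∀ a, Q a → a ∉ B := fun a ha => not_mem_of_reach huB ha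
  have hQadj : ∀ a b, Q a → T.Adj a b → b ∉ B → Q b := by
    intro a b ha hab hb
    exact SimpleGraph.Reachable.trans ha (SimpleGraph.Adj.reachable (G := del T B) ⟨hab, hQB a ha, hb⟩)
  have hQX : ∀ a, Q a → a ∈ X := by
    intro a ha
    by_cases hua : u = a
    · rw [← hua]; exact hu
    · obtain ⟨q⟩ := SimpleGraph.Reachable.symm ha
      cases q with
      | nil => exact absurd rfl hua
      | cons hab _ => exact (hTX.1 _ _ hab.1).1
  let R' : SimpleGraph V :=
    { Adj := fun a b => (Q a ∧ Q b ∧ R.Adj a b) ∨ (¬ (Q a ∧ Q b) ∧ T.Adj a b) ∨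
        ((a = u ∧ b = z) ∨ (a = z ∧ b = u))
      symm := ⟨by
        rintro a b (⟨ha, hb, hab⟩ | ⟨hn, hab⟩ | (⟨ha, hb⟩ | ⟨ha, hb⟩))
        · exact Or.inl ⟨hb, ha, hab.symm⟩
        · exact Or.inr (Or.inl ⟨fun h => hn ⟨h.2, h.1⟩, hab.symm⟩)
        · exact Or.inr (Or.inr (Or.inr ⟨hb, ha⟩))
        · exact Or.inr (Or.inr (Or.inl ⟨hb, ha⟩))⟩
      loopless := ⟨by
        rintro a (⟨_, _, hab⟩ | ⟨_, hab⟩ | (⟨ha, hb⟩ | ⟨ha, hb⟩))
        · exact hab.ne rfl
        · exact hab.ne rfl
        · exact huz.ne (ha.symm.trans hb)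
        · exact huz.ne (hb.symm.trans ha)⟩ }
  have hRR' : ∀ a, Q a → R'.Reachable u a := by
    intro a ha
    refine (h3 a ha).mono ?_
    intro x y hxy
    obtain ⟨hx, hy⟩ := h2 x y hxy
    exact Or.inl ⟨hx, hy, hxy⟩
  have hTR' : ∀ a b, T.Reachable a b → R'.Reachable a b := by
    intro a b hab
    refine reach_of_forall (R := T) (Q := fun _ => True) ?_ trivial hab
    intro x y hxy _
    refine ⟨trivial, ?_⟩
    by_cases hQ2 : Q x ∧ Q y
    · exact (hRR' x hQ2.1).symm.trans (hRR' y hQ2.2)
    · exact SimpleGraph.Adj.reachable (G := R') (Or.inr (Or.inl ⟨hQ2, hxy⟩))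
  have hzu : R'.Reachable z u := SimpleGraph.Adj.reachable (G := R') (Or.inr (Or.inr (Or.inr ⟨rfl, rfl⟩)))
  refine ⟨R', ?_, ⟨?_, ?_⟩, ?_⟩
  · rintro a b (⟨_, _, hab⟩ | ⟨_, hab⟩ | (⟨ha, hb⟩ | ⟨ha, hb⟩))
    · exact h1 hab
    · exact hTH hab
    · rw [ha, hb]; exact huz
    · rw [ha, hb]; exact huz.symm
  · rintro a b (⟨ha, hb, _⟩ | ⟨_, hab⟩ | (⟨ha, hb⟩ | ⟨ha, hb⟩))
    · exact ⟨mem_insert_of_mem (hQX a ha), mem_insert_of_mem (hQX b hb)⟩
    · exact ⟨mem_insert_of_mem (hTX.1 a b hab).1, mem_insert_of_mem (hTX.1 a b hab).2⟩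
    · rw [ha, hb]; exact ⟨mem_insert_of_mem hu, mem_insert_self _ _⟩
    · rw [ha, hb]; exact ⟨mem_insert_self _ _, mem_insert_of_mem hu⟩
  · have hto : ∀ a ∈ insert z X, R'.Reachable a u := by
      intro a ha
      rw [mem_insert] at ha
      rcases ha with rfl | ha
      · exact hzu
      · exact hTR' _ _ (hTX.2 a ha u hu)
    intro a ha b hb
    exact (hto a ha).trans (hto b hb).symm
  · intro a
    by_cases ha : Q a
    · have e1 : dg R' a ≤ (dg R a + dgIn T B a) + (if a = u then 1 else 0) := by
        have e0 : ∀ b, R'.Adj a b → b ∈ (univ.filter (fun b => R.Adj a b) ∪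
            univ.filter (fun b => T.Adj a b ∧ b ∈ B)) ∪ (if a = u then {z} else ∅) := by
          intro b hb
          simp only [mem_union, mem_filter, mem_univ, true_and]
          rcases hb with ⟨_, _, hab⟩ | ⟨hn, hab⟩ | (⟨h1, h2⟩ | ⟨h1, h2⟩)
          · exact Or.inl (Or.inl hab)
          · left; right
            refine ⟨hab, ?_⟩
            by_contra hbB
            exact hn ⟨ha, hQadj a b ha hab hbB⟩
          · right
            rw [if_pos h1, h2]
            simp
          · exfalso
            rw [h1] at ha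
            exact hz (hQX z ha)
        refine le_trans (dg_le_of R' a _ e0) (le_trans (Finset.card_union_le _ _) ?_)
        refine add_le_add (Finset.card_union_le _ _) ?_
        split_ifs <;> simp
      by_cases hau : a = u
      · rw [if_pos hau] at e1
        rw [hau] at e1 ⊢
        omega
      · rw [if_neg hau] at e1
        have := h4 a ha
        omega
    · by_cases haz : a = z
      · have e0 : ∀ b, R'.Adj a b → b ∈ ({u} : Finset V) := by
          intro b hb
          rcases hb with ⟨hx, _, _⟩ | ⟨_, hab⟩ | (⟨h1, _⟩ | ⟨_, h2⟩)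
          · exact absurd hx ha
          · exact absurd (hTX.1 a b hab).1 (haz ▸ hz)
          · exact absurd (show Q a by rw [h1]) ha
          · rw [h2]; simp
        have := dg_le_of R' a _ e0
        simp at this
        omega
      · have e0 : dg R' a ≤ dg T a := by
          apply dg_le_dg
          intro b hb
          rcases hb with ⟨hx, _, _⟩ | ⟨_, hab⟩ | (⟨h1, _⟩ | ⟨h1, _⟩)
          · exact absurd hx ha
          · exact hab
          · exact absurd (show Q a by rw [h1]) ha
          · exact absurd h1 haz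
        have := hT a
        omega

/-- A graph of maximal degree `D` in which every proper set of vertices has at least `D` leaving
edges has a spanning connected subgraph of maximal degree three. -/
theorem win [Nonempty V] (H : SimpleGraph V) (D : ℕ) (hD : 1 ≤ D) (hdeg : ∀ v, dg H v ≤ D)
    (hbd : ∀ W : Finset V, W.Nonempty → W ≠ univ → D ≤ bd H W) :
    ∃ R : SimpleGraph V, R ≤ H ∧ (∀ a b, R.Reachable a b) ∧ ∀ v, dg R v ≤ 3 := by
  -- a maximal set
  let Good : Finset V → Prop := fun X => X.Nonempty ∧ ∃ R : SimpleGraph V, R ≤ H ∧ ConnOn R X ∧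
    ∀ v, dg R v ≤ 3
  have hne : (univ.filter Good).Nonempty := by
    obtain ⟨v0⟩ := (inferInstance : Nonempty V)
    refine ⟨{v0}, ?_⟩
    rw [mem_filter]
    refine ⟨mem_univ _, ⟨v0, mem_singleton_self _⟩, ⊥, bot_le, ⟨?_, ?_⟩, ?_⟩
    · intro a b h
      exact absurd h (by simp)
    · intro a ha b hb
      rw [mem_singleton] at ha hb
      rw [ha, hb]
    · intro v
      have : dg (⊥ : SimpleGraph V) v ≤ (∅ : Finset V).card := dg_le_of _ _ _ (fun b hb => absurd hb (by simp))
      simp at this
      omega
  obtain ⟨X, hX, hXmax⟩ := Finset.exists_max_image (univ.filter Good) Finset.card hne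
  rw [mem_filter] at hX
  obtain ⟨-, ⟨r, hr⟩, R, hRH, hRX, hR3⟩ := hX
  by_cases hXu : X = univ
  · refine ⟨R, hRH, fun a b => hRX.2 a (by rw [hXu]; exact mem_univ _) b (by rw [hXu]; exact mem_univ _), hR3⟩
  exfalso
  obtain ⟨p, δ, hpδ⟩ := exists_parent R X hRX r hr
  set T : SimpleGraph V := ptree X r p δ (fun v hv hvr => (hpδ v hv hvr).2.2) with hTdef
  have hTadj : ∀ a b, T.Adj a b ↔ (a ∈ X ∧ a ≠ r ∧ p a = b) ∨ (b ∈ X ∧ b ≠ r ∧ p b = a) :=
    fun a b => Iff.rfl
  have hTR : T ≤ R := by
    rintro a b (⟨h1, h2, h3⟩ | ⟨h1, h2, h3⟩)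
    · rw [← h3]; exact (hpδ a h1 h2).2.1
    · rw [← h3]; exact (hpδ b h1 h2).2.1.symm
  have hTH : T ≤ H := hTR.trans hRH
  have hT3 : ∀ v, dg T v ≤ 3 := fun v => (dg_mono hTR v).trans (hR3 v)
  have hTX : ConnOn T X := by
    refine ⟨fun a b h => hRX.1 a b (hTR h), ?_⟩
    have hto : ∀ (n : ℕ) (v : V), v ∈ X → δ v ≤ n → T.Reachable v r := by
      intro n
      induction n with
      | zero =>
        intro v hv hn
        by_cases hvr : v = r
        · rw [hvr]
        · have := (hpδ v hv hvr).2.2
          omega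
      | succ n ih =>
        intro v hv hn
        by_cases hvr : v = r
        · rw [hvr]
        · have h1 := hpδ v hv hvr
          have h2 : T.Adj v (p v) := Or.inl ⟨hv, hvr, rfl⟩
          exact h2.reachable.trans (ih (p v) h1.1 (by omega))
    intro a ha b hb
    exact (hto _ a ha le_rfl).trans (hto _ b hb le_rfl).symm
  -- a minimal blocking set
  let PB : Finset V → Prop := fun B => B ⊆ X ∧ (∀ b ∈ B, dg T b = 3) ∧ ∀ u ∈ X, u ∉ B → Red H T B u
  have hPB : (univ.filter PB).Nonempty := by
    refine ⟨X.filter (fun v => dg T v = 3), ?_⟩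
    rw [mem_filter]
    refine ⟨mem_univ _, filter_subset _ _, fun b hb => (mem_filter.1 hb).2, fun u hu huB => ?_⟩
    refine red_base hTH hT3 ?_
    have h1 := hT3 u
    have h2 : dg T u ≠ 3 := fun h => huB (mem_filter.2 ⟨hu, h⟩)
    omega
  obtain ⟨B, hB, hBmin⟩ := Finset.exists_min_image (univ.filter PB) Finset.card hPB
  rw [mem_filter] at hB
  obtain ⟨-, hBX, hB3, hBred⟩ := hB
  -- no edges between different components
  have claim1 : ∀ u v, u ∈ X → u ∉ B → v ∈ X → v ∉ B → H.Adj u v → (del T B).Reachable u v := by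
    intro u v hu huB hv hvB huv
    by_contra hnr
    obtain ⟨q, hq⟩ := (hTX.2 u hu v hv).exists_isPath
    have hmem : ∃ x ∈ B, x ∈ q.support := by
      by_contra hno
      push Not at hno
      apply hnr
      have key : ∀ (a b : V) (w : T.Walk a b), (∀ x ∈ w.support, x ∉ B) → (del T B).Reachable a b := by
        intro a b w
        induction w with
        | nil => intro _; exact SimpleGraph.Reachable.refl _
        | @cons a c b hac w ih =>
          intro h
          have h1 : (del T B).Adj a c := ⟨hac, h a (by simp), h c (by simp)⟩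
          exact h1.reachable.trans (ih (fun x hx => h x (by simp [hx])))
      exact key _ _ q (fun x hx hxB => hno x hxB hx)
    obtain ⟨x0, hx0B, hx0q⟩ := hmem
    have hPB' : PB (B.filter (fun w => w ∉ q.support)) := by
      refine ⟨(filter_subset _ _).trans hBX, fun b hb => hB3 b (mem_filter.1 hb).1, fun w hw hwB' => ?_⟩
      by_cases hwB : w ∈ B
      · have hwq : w ∈ q.support := by
          by_contra h
          exact hwB' (mem_filter.2 ⟨hwB, h⟩)
        exact red_step hTH hT3 huB hvB huv hnr q hq (hBred u hu huB) (hBred v hv hvB) hwB hwq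
      · exact red_mono hTH hT3 (filter_subset _ _) hwB (hBred w hw hwB)
    have h1 := hBmin _ (mem_filter.2 ⟨mem_univ _, hPB'⟩)
    have h2 : (B.filter (fun w => w ∉ q.support)).card < B.card := by
      apply Finset.card_lt_card
      rw [Finset.ssubset_iff_of_subset (filter_subset _ _)]
      exact ⟨x0, hx0B, fun h => (mem_filter.1 h).2 hx0q⟩
    omega
  have claim2 : ∀ u z, u ∈ X → u ∉ B → z ∉ X → ¬ H.Adj u z := by
    intro u z hu huB hz huz
    obtain ⟨R', h1, h2, h3⟩ := extend hTH hT3 hTX hu huB hz huz (hBred u hu huB)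
    have h4 := hXmax (insert z X) (mem_filter.2 ⟨mem_univ _, insert_nonempty _ _, R', h1, h2, h3⟩)
    rw [card_insert_of_notMem hz] at h4
    omega
  -- the top vertex of a component
  let g : V → V := fun w => if w = r ∨ p w ∈ B then w else p w
  have hgX : ∀ w ∈ X, g w ∈ X := by
    intro w hw
    show (if w = r ∨ p w ∈ B then w else p w) ∈ X
    split_ifs with h
    · exact hw
    · push Not at h
      exact (hpδ w hw h.1).1
  have hgd : ∀ w ∈ X, g w = w ∨ δ (g w) < δ w := by
    intro w hw
    by_cases h : w = r ∨ p w ∈ B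
    · left
      show (if w = r ∨ p w ∈ B then w else p w) = w
      rw [if_pos h]
    · right
      have e : g w = p w := by
        show (if w = r ∨ p w ∈ B then w else p w) = p w
        rw [if_neg h]
      rw [e]
      push Not at h
      exact (hpδ w hw h.1).2.2
  have hitX : ∀ (n : ℕ) (w : V), w ∈ X → g^[n] w ∈ X := by
    intro n
    induction n with
    | zero => intro w hw; exact hw
    | succ n ih => intro w hw; rw [Function.iterate_succ_apply]; exact ih _ (hgX w hw)
  have hit : ∀ (n : ℕ) (w : V), w ∈ X → g (g^[n] w) = g^[n] w ∨ δ (g^[n] w) + n ≤ δ w := by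
    intro n
    induction n with
    | zero => intro w _; right; simp
    | succ n ih =>
      intro w hw
      rw [Function.iterate_succ_apply']
      rcases ih w hw with h | h
      · left; rw [h, h]
      · rcases hgd (g^[n] w) (hitX n w hw) with h1 | h1
        · left; rw [h1, h1]
        · right; omega
  let N : ℕ := univ.sup δ + 1
  have hN : ∀ w ∈ X, g (g^[N] w) = g^[N] w := by
    intro w hw
    rcases hit N w hw with h | h
    · exact h
    · have : δ w ≤ univ.sup δ := Finset.le_sup (mem_univ w)
      simp only [N] at h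
      omega
  let top : V → V := fun w => g^[N] w
  have htopadj : ∀ a b, (del T B).Adj a b → top a = top b := by
    have h0 : ∀ a b, a ∈ X → a ≠ r → p a = b → b ∉ B → top a = top b := by
      intro a b ha har hab hbB
      have e : g a = b := by
        show (if a = r ∨ p a ∈ B then a else p a) = b
        rw [if_neg (by rw [hab]; push Not; exact ⟨har, hbB⟩), hab]
      show g^[N] a = g^[N] b
      have h1 : g^[N] (g a) = g (g^[N] a) :=
        (Function.iterate_succ_apply g N a).symm.trans (Function.iterate_succ_apply' g N a)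
      rw [← e, h1, hN a ha]
    rintro a b ⟨h1 | h1, h2, h3⟩
    · exact h0 a b h1.1 h1.2.1 h1.2.2 h3
    · exact (h0 b a h1.1 h1.2.1 h1.2.2 h2).symm
  have htopreach : ∀ a b, (del T B).Reachable a b → top a = top b := by
    rintro a b ⟨q⟩
    induction q with
    | nil => rfl
    | cons hab _ ih => exact (htopadj _ _ hab).trans ih
  -- the tops
  let Tops : Finset V := X.filter (fun q => q ∉ B ∧ (q = r ∨ p q ∈ B))
  have htopfix : ∀ q ∈ Tops, top q = q := by
    intro q hq
    rw [mem_filter] at hq
    have e : g q = q := by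
      show (if q = r ∨ p q ∈ B then q else p q) = q
      rw [if_pos hq.2.2]
    show g^[N] q = q
    exact Function.iterate_fixed e N
  -- B is nonempty
  have hBne : B.Nonempty := by
    by_contra hBe
    rw [not_nonempty_iff_eq_empty] at hBe
    have h1 := hbd X ⟨r, hr⟩ hXu
    have h2 : bd H X = 0 := by
      unfold bd
      rw [Finset.card_eq_zero, Finset.filter_eq_empty_iff]
      rintro ⟨a, b⟩ _ ⟨h3, h4, h5⟩
      exact claim2 a b h3 (by rw [hBe]; simp) h4 h5
    omega
  -- the number of tops
  have hTops : B.card + 2 ≤ Tops.card := by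
    -- children
    let ch : V → Finset V := fun b => X.filter (fun w => w ≠ r ∧ p w = b)
    have hch : ∀ b ∈ B, (ch b).card + (if b = r then 0 else 1) = 3 := by
      intro b hb
      have hbX := hBX hb
      rw [← hB3 b hb]
      unfold dg
      by_cases hbr : b = r
      · rw [if_pos hbr, add_zero]
        congr 1
        ext w
        simp only [ch, mem_filter, mem_univ, true_and, hTadj]
        constructor
        · rintro ⟨h1, h2, h3⟩
          exact Or.inr ⟨h1, h2, h3⟩
        · rintro (⟨h1, h2, h3⟩ | ⟨h1, h2, h3⟩)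
          · exact absurd hbr h2
          · exact ⟨h1, h2, h3⟩
      · rw [if_neg hbr]
        have e1 : univ.filter (fun w => T.Adj b w) = insert (p b) (ch b) := by
          ext w
          simp only [ch, mem_filter, mem_univ, true_and, hTadj, mem_insert]
          constructor
          · rintro (⟨h1, h2, h3⟩ | ⟨h1, h2, h3⟩)
            · exact Or.inl h3.symm
            · exact Or.inr ⟨h1, h2, h3⟩
          · rintro (h | ⟨h1, h2, h3⟩)
            · exact Or.inl ⟨hbX, hbr, h.symm⟩
            · exact Or.inr ⟨h1, h2, h3⟩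
        rw [e1, card_insert_of_notMem]
        intro h
        simp only [ch, mem_filter] at h
        have h1 := (hpδ b hbX hbr).2.2
        have h2 := (hpδ (p b) h.1 h.2.1).2.2
        rw [h.2.2] at h2
        omega
    have hsum : (X.filter (fun w => w ≠ r ∧ p w ∈ B)).card = ∑ b ∈ B, (ch b).card := by
      rw [← Finset.card_biUnion]
      · congr 1
        ext w
        simp only [ch, mem_filter, mem_biUnion]
        constructor
        · rintro ⟨h1, h2, h3⟩
          exact ⟨p w, h3, h1, h2, rfl⟩
        · rintro ⟨b, hb, h1, h2, h3⟩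
          exact ⟨h1, h2, h3 ▸ hb⟩
      · intro b _ b' _ hbb'
        rw [Function.onFun, Finset.disjoint_left]
        intro w hw hw'
        simp only [ch, mem_filter] at hw hw'
        exact hbb' (hw.2.2.symm.trans hw'.2.2)
    have hsum2 : (∑ b ∈ B, (ch b).card) + ∑ b ∈ B, (if b = r then 0 else 1) = 3 * B.card := by
      rw [← Finset.sum_add_distrib, Finset.sum_congr rfl hch]
      simp [mul_comm]
    have hsum3 : (∑ b ∈ B, (if b = r then 0 else 1)) + (if r ∈ B then 1 else 0) = B.card := by
      have : ∀ b ∈ B, (if b = r then 0 else 1) = 1 - (if b = r then 1 else 0) := by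
        intro b _
        split_ifs <;> rfl
      by_cases hrB : r ∈ B
      · rw [if_pos hrB]
        rw [← Finset.add_sum_erase B _ hrB, if_pos rfl, zero_add]
        rw [Finset.sum_congr rfl (g := fun _ => 1) (fun b hb => if_neg (mem_erase.1 hb).1)]
        simp
        exact Finset.card_erase_add_one hrB
      · rw [if_neg hrB, add_zero]
        have e1 : ∀ b ∈ B, (if b = r then 0 else 1) = 1 := by
          intro b hb
          have : b ≠ r := fun h => hrB (by rw [← h]; exact hb)
          rw [if_neg this]
        rw [Finset.sum_congr rfl e1]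
        simp
    -- elements of B whose parent is in B
    obtain ⟨bm, hbm, hbmin⟩ := Finset.exists_min_image B δ hBne
    have hin : (B.filter (fun w => w ≠ r ∧ p w ∈ B)).card + 1 ≤ B.card := by
      have : B.filter (fun w => w ≠ r ∧ p w ∈ B) ⊆ B.erase bm := by
        intro w hw
        rw [mem_filter] at hw
        rw [mem_erase]
        refine ⟨?_, hw.1⟩
        rintro rfl
        have h1 := (hpδ w (hBX hw.1) hw.2.1).2.2
        have h2 := hbmin (p w) hw.2.2
        omega
      have h1 := Finset.card_le_card this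
      have h2 := Finset.card_erase_add_one hbm
      omega
    have hsplit : (X.filter (fun w => w ≠ r ∧ p w ∈ B)).card =
        (X.filter (fun w => w ∉ B ∧ w ≠ r ∧ p w ∈ B)).card +
          (B.filter (fun w => w ≠ r ∧ p w ∈ B)).card := by
      rw [← Finset.card_union_of_disjoint]
      · congr 1
        ext w
        simp only [mem_filter, mem_union]
        constructor
        · rintro ⟨h1, h2⟩
          by_cases hw : w ∈ B
          · exact Or.inr ⟨hw, h2⟩
          · exact Or.inl ⟨h1, hw, h2⟩
        · rintro (⟨h1, h2, h3⟩ | ⟨h1, h2⟩)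
          · exact ⟨h1, h3⟩
          · exact ⟨hBX h1, h2⟩
      · rw [Finset.disjoint_left]
        intro w hw hw'
        exact (mem_filter.1 hw).2.1 (mem_filter.1 hw').1
    have hT2 : Tops.card = (X.filter (fun w => w ∉ B ∧ w ≠ r ∧ p w ∈ B)).card +
        (if r ∈ B then 0 else 1) := by
      by_cases hrB : r ∈ B
      · rw [if_pos hrB, add_zero]
        congr 1
        ext w
        simp only [Tops, mem_filter]
        constructor
        · rintro ⟨h1, h2, h3⟩
          have hwr : w ≠ r := fun h => h2 (h ▸ hrB)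
          rcases h3 with h3 | h3
          · exact absurd h3 hwr
          · exact ⟨h1, h2, hwr, h3⟩
        · rintro ⟨h1, h2, h3, h4⟩
          exact ⟨h1, h2, Or.inr h4⟩
      · rw [if_neg hrB]
        have e1 : Tops = insert r (X.filter (fun w => w ∉ B ∧ w ≠ r ∧ p w ∈ B)) := by
          ext w
          simp only [Tops, mem_filter, mem_insert]
          constructor
          · rintro ⟨h1, h2, h3⟩
            by_cases hwr : w = r
            · exact Or.inl hwr
            · rcases h3 with h3 | h3
              · exact absurd h3 hwr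
              · exact Or.inr ⟨h1, h2, hwr, h3⟩
          · rintro (h | ⟨h1, h2, h3, h4⟩)
            · rw [h]; exact ⟨hr, hrB, Or.inl rfl⟩
            · exact ⟨h1, h2, Or.inr h4⟩
        rw [e1, card_insert_of_notMem]
        intro h
        exact (mem_filter.1 h).2.2.1 rfl
    by_cases hrB : r ∈ B
    · rw [if_pos hrB] at hsum3 hT2
      omega
    · rw [if_neg hrB] at hsum3 hT2
      omega
  -- the edges between B and its complement
  let E1 : Finset (V × V) := univ.filter (fun e => e.1 ∉ B ∧ e.2 ∈ B ∧ H.Adj e.1 e.2)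
  have hE1 : E1.card ≤ B.card * D := by
    have h1 : E1 ⊆ B.biUnion (fun b => (univ.filter (fun a => H.Adj b a)).image (fun a => (a, b))) := by
      rintro ⟨a, b⟩ h
      simp only [E1, mem_filter, mem_univ, true_and] at h
      simp only [mem_biUnion, mem_image, mem_filter, mem_univ, true_and]
      exact ⟨b, h.2.1, a, h.2.2.symm, rfl⟩
    refine (Finset.card_le_card h1).trans (Finset.card_biUnion_le.trans ?_)
    refine (Finset.sum_le_sum (g := fun _ => D) (fun b _ => ?_)).trans (by simp)
    exact Finset.card_image_le.trans (hdeg b)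
  let φ : V × V → Option V := fun e => if e.1 ∈ X then some (top e.1) else none
  let idx : Finset (Option V) := insert none (Tops.image some)
  have hidx : idx.card = Tops.card + 1 := by
    rw [card_insert_of_notMem (by simp), Finset.card_image_of_injective _ (Option.some_injective _)]
  have hfib : ∀ o ∈ idx, D ≤ (E1.filter (fun e => φ e = o)).card := by
    intro o ho
    rw [mem_insert] at ho
    rcases ho with rfl | ho
    · -- the outside
      have hne : (univ \ X : Finset V).Nonempty := by
        by_contra h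
        rw [not_nonempty_iff_eq_empty, Finset.sdiff_eq_empty_iff_subset] at h
        exact hXu (Finset.eq_univ_of_forall fun x => h (mem_univ x))
      have hnu : (univ \ X : Finset V) ≠ univ := by
        intro h
        have : r ∈ (univ \ X : Finset V) := by rw [h]; exact mem_univ _
        exact (mem_sdiff.1 this).2 hr
      refine (hbd _ hne hnu).trans ?_
      unfold bd
      apply Finset.card_le_card
      rintro ⟨a, b⟩ h
      simp only [mem_filter, mem_univ, true_and, mem_sdiff, not_not] at h
      simp only [E1, φ, mem_filter, mem_univ, true_and]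
      have haB : a ∉ B := fun h' => h.1 (hBX h')
      have hbB : b ∈ B := by
        by_contra hbB
        exact claim2 b a h.2.1 hbB h.1 h.2.2.symm
      exact ⟨⟨haB, hbB, h.2.2⟩, if_neg h.1⟩
    · rw [mem_image] at ho
      obtain ⟨q, hq, rfl⟩ := ho
      have hq' := hq
      rw [mem_filter] at hq'
      let W : Finset V := X.filter (fun a => a ∉ B ∧ top a = q)
      have hW1 : W.Nonempty := ⟨q, mem_filter.2 ⟨hq'.1, hq'.2.1, htopfix q hq⟩⟩
      have hW2 : W ≠ univ := by
        intro h
        obtain ⟨b, hb⟩ := hBne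
        have : b ∈ W := by rw [h]; exact mem_univ _
        exact (mem_filter.1 this).2.1 hb
      refine (hbd W hW1 hW2).trans ?_
      unfold bd
      apply Finset.card_le_card
      rintro ⟨a, b⟩ h
      simp only [mem_filter, mem_univ, true_and] at h
      obtain ⟨h1, h2, h3⟩ := h
      rw [mem_filter] at h1
      have hbB : b ∈ B := by
        by_contra hbB
        by_cases hbX : b ∈ X
        · apply h2
          rw [mem_filter]
          refine ⟨hbX, hbB, ?_⟩
          rw [← htopreach a b (claim1 a b h1.1 h1.2.1 hbX hbB h3)]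
          exact h1.2.2
        · exact claim2 a b h1.1 h1.2.1 hbX h3
      simp only [E1, φ, mem_filter, mem_univ, true_and]
      refine ⟨⟨h1.2.1, hbB, h3⟩, ?_⟩
      rw [if_pos h1.1, h1.2.2]
  have hfin : idx.card * D ≤ E1.card := by
    calc idx.card * D = ∑ _o ∈ idx, D := by simp
      _ ≤ ∑ o ∈ idx, (E1.filter (fun e => φ e = o)).card := Finset.sum_le_sum hfib
      _ ≤ E1.card := by
        rw [← Finset.card_biUnion]
        · apply Finset.card_le_card
          intro e he
          rw [mem_biUnion] at he
          obtain ⟨o, _, he⟩ := he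
          exact (mem_filter.1 he).1
        · intro o _ o' _ hoo'
          rw [Function.onFun, Finset.disjoint_left]
          intro e he he'
          exact hoo' ((mem_filter.1 he).2.symm.trans (mem_filter.1 he').2)
  have h1 : idx.card * D ≤ B.card * D := hfin.trans hE1
  have h2 : idx.card ≤ B.card := Nat.le_of_mul_le_mul_right h1 hD
  omega

end Pool.Agent.R546.HC
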