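import Mathlib
import Pool.Agent.R546.HC.Win

/-!
# Edge connectivity of vertex transitive graphs (Mader) (helper546)
-/

set_option autoImplicit false
set_option linter.unusedSectionVars false

namespace Pool.Agent.R546.HC

open Finset Classical

variable {V : Type} [Fintype V]

theorem bd_compl (H : SimpleGraph V) (W : Finset V) : bd H Wᶜ = bd H W := by
  unfold bd
  apply Finset.card_bij (fun e _ => (e.2, e.1))
  · rintro ⟨a, b⟩ h
    simp only [mem_filter, mem_univ, true_and, mem_compl, not_not] at h ⊢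
    exact ⟨h.2.1, h.1, h.2.2.symm⟩
  · rintro ⟨a, b⟩ _ ⟨c, d⟩ _ h
    simp only [Prod.mk.injEq] at h ⊢
    exact ⟨h.2, h.1⟩
  · rintro ⟨a, b⟩ h
    refine ⟨(b, a), ?_, rfl⟩
    simp only [mem_filter, mem_univ, true_and, mem_compl, not_not] at h ⊢
    exact ⟨h.2.1, h.1, h.2.2.symm⟩

theorem bd_submod (H : SimpleGraph V) (A B : Finset V) :
    bd H (A ∩ B) + bd H (A ∪ B) ≤ bd H A + bd H B := by
  unfold bd
  rw [← Finset.card_union_add_card_inter, ← Finset.card_union_add_card_inter (univ.filter _)
    (univ.filter fun e : V × V => e.1 ∈ B ∧ e.2 ∉ B ∧ H.Adj e.1 e.2)]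
  apply add_le_add
  · apply Finset.card_le_card
    rintro ⟨a, b⟩ h
    simp only [mem_union, mem_filter, mem_univ, true_and, mem_inter, not_and, not_or] at h ⊢
    tauto
  · apply Finset.card_le_card
    rintro ⟨a, b⟩ h
    simp only [mem_union, mem_filter, mem_univ, true_and, mem_inter, not_and, not_or] at h ⊢
    tauto

variable {G : Type} [Group G] [MulAction G V]

theorem adj_smul_iff (H : SimpleGraph V) (hinv : ∀ (g : G) (a b : V), H.Adj a b → H.Adj (g • a) (g • b))
    (g : G) (a b : V) : H.Adj (g • a) (g • b) ↔ H.Adj a b := by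
  constructor
  · intro h
    have := hinv g⁻¹ _ _ h
    rwa [inv_smul_smul, inv_smul_smul] at this
  · exact hinv g a b

theorem bd_smul (H : SimpleGraph V) (hinv : ∀ (g : G) (a b : V), H.Adj a b → H.Adj (g • a) (g • b))
    (g : G) (W : Finset V) : bd H (W.image (fun x => g • x)) = bd H W := by
  unfold bd
  symm
  apply Finset.card_bij (fun e _ => (g • e.1, g • e.2))
  · rintro ⟨a, b⟩ h
    simp only [mem_filter, mem_univ, true_and] at h ⊢
    refine ⟨mem_image_of_mem _ h.1, ?_, hinv g a b h.2.2⟩
    intro hb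
    rw [mem_image] at hb
    obtain ⟨c, hc, hcb⟩ := hb
    have : c = b := MulAction.injective g hcb
    exact h.2.1 (this ▸ hc)
  · rintro ⟨a, b⟩ _ ⟨c, d⟩ _ h
    simp only [Prod.mk.injEq] at h ⊢
    exact ⟨MulAction.injective g h.1, MulAction.injective g h.2⟩
  · rintro ⟨a, b⟩ h
    simp only [mem_filter, mem_univ, true_and, mem_image] at h
    obtain ⟨⟨c, hc, hca⟩, h2, h3⟩ := h
    refine ⟨(c, g⁻¹ • b), ?_, ?_⟩
    · simp only [mem_filter, mem_univ, true_and]
      refine ⟨hc, fun hb => h2 ⟨g⁻¹ • b, hb, smul_inv_smul g b⟩, ?_⟩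
      rw [← adj_smul_iff H hinv g, hca, smul_inv_smul]
      exact h3
    · simp only [hca, smul_inv_smul]

theorem dg_smul (H : SimpleGraph V) (hinv : ∀ (g : G) (a b : V), H.Adj a b → H.Adj (g • a) (g • b))
    (g : G) (a : V) : dg H (g • a) = dg H a := by
  unfold dg
  symm
  apply Finset.card_bij (fun b _ => g • b)
  · intro b h
    simp only [mem_filter, mem_univ, true_and] at h ⊢
    exact hinv g a b h
  · intro b _ c _ h
    exact MulAction.injective g h
  · intro b h
    simp only [mem_filter, mem_univ, true_and] at h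
    refine ⟨g⁻¹ • b, ?_, smul_inv_smul g b⟩
    simp only [mem_filter, mem_univ, true_and]
    rw [← adj_smul_iff H hinv g, smul_inv_smul]
    exact h

/-- Mader: a connected vertex transitive graph of degree `D` is `D`-edge-connected. -/
theorem mader (htr : ∀ a b : V, ∃ g : G, g • a = b) (H : SimpleGraph V)
    (hinv : ∀ (g : G) (a b : V), H.Adj a b → H.Adj (g • a) (g • b))
    (hconn : ∀ a b, H.Reachable a b) (v0 : V) (W : Finset V) (hW : W.Nonempty) (hWu : W ≠ univ) :
    dg H v0 ≤ bd H W := by
  -- the family of proper sets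
  let P : Finset V → Prop := fun W => W.Nonempty ∧ W ≠ univ
  have hne : (univ.filter P).Nonempty := ⟨W, mem_filter.2 ⟨mem_univ _, hW, hWu⟩⟩
  obtain ⟨A0, hA0, hA0min⟩ := Finset.exists_min_image (univ.filter P) (bd H) hne
  let P2 : Finset V → Prop := fun W => P W ∧ bd H W = bd H A0
  have hne2 : (univ.filter P2).Nonempty := ⟨A0, mem_filter.2 ⟨mem_univ _, (mem_filter.1 hA0).2, rfl⟩⟩
  obtain ⟨A, hA, hAmin⟩ := Finset.exists_min_image (univ.filter P2) Finset.card hne2
  obtain ⟨-, ⟨hAne, hAu⟩, hAbd⟩ := mem_filter.1 hA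
  have hmin : ∀ B : Finset V, B.Nonempty → B ≠ univ → bd H A ≤ bd H B := by
    intro B h1 h2
    rw [hAbd]
    exact hA0min B (mem_filter.2 ⟨mem_univ _, h1, h2⟩)
  have hmin2 : ∀ B : Finset V, B.Nonempty → B ≠ univ → bd H B = bd H A → A.card ≤ B.card := by
    intro B h1 h2 h3
    exact hAmin B (mem_filter.2 ⟨mem_univ _, ⟨h1, h2⟩, h3.trans hAbd⟩)
  refine le_trans ?_ (hmin W hW hWu)
  -- the size of an atom
  have hhalf : A.card + A.card ≤ Fintype.card V := by
    have h1 : Aᶜ.Nonempty := by
      by_contra h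
      rw [not_nonempty_iff_eq_empty, Finset.compl_eq_empty_iff] at h
      exact hAu h
    have h2 : Aᶜ ≠ univ := by
      intro h
      obtain ⟨a, ha⟩ := hAne
      have : a ∈ Aᶜ := by rw [h]; exact mem_univ _
      exact (mem_compl.1 this) ha
    have h3 := hmin2 Aᶜ h1 h2 (bd_compl H A)
    have h4 := Finset.card_add_card_compl A
    omega
  -- atoms are blocks
  have hblock : ∀ g : G, (∃ a ∈ A, g • a ∈ A) → A.image (fun x => g • x) = A := by
    rintro g ⟨a, ha, hga⟩
    set A' := A.image (fun x => g • x) with hA'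
    have hcard : A'.card = A.card := Finset.card_image_of_injective _ (MulAction.injective g)
    by_contra hneq
    have hI : (A ∩ A').Nonempty := ⟨g • a, mem_inter.2 ⟨hga, mem_image_of_mem _ ha⟩⟩
    have hIu : A ∩ A' ≠ univ := by
      intro h
      apply hAu
      exact Finset.eq_univ_of_forall fun x => (mem_inter.1 (by rw [h]; exact mem_univ x)).1
    have hUne : (A ∪ A').Nonempty := hAne.mono subset_union_left
    have hui := Finset.card_union_add_card_inter A A'
    have hIpos : 1 ≤ (A ∩ A').card := Finset.card_pos.2 hI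
    have hUu : A ∪ A' ≠ univ := by
      intro h
      rw [h, Finset.card_univ] at hui
      omega
    have h1 := bd_submod H A A'
    rw [hA', bd_smul H hinv g A, ← hA'] at h1
    have h2 := hmin _ hI hIu
    have h3 := hmin _ hUne hUu
    have h4 := hmin2 _ hI hIu (by omega)
    have h5 : A ∩ A' = A := Finset.eq_of_subset_of_card_le inter_subset_left h4
    have h6 : A ⊆ A' := by
      rw [← h5]; exact inter_subset_right
    exact hneq (Finset.eq_of_subset_of_card_le h6 hcard.le).symm
  -- the number of outer neighbours is constant on A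
  let out : V → ℕ := fun a => (univ.filter (fun b => H.Adj a b ∧ b ∉ A)).card
  have hout : ∀ a ∈ A, ∀ a' ∈ A, out a = out a' := by
    intro a ha a' ha'
    obtain ⟨g, hg⟩ := htr a a'
    have hgA := hblock g ⟨a, ha, by rw [hg]; exact ha'⟩
    apply Finset.card_bij (fun b _ => g • b)
    · intro b h
      simp only [mem_filter, mem_univ, true_and] at h ⊢
      refine ⟨?_, ?_⟩
      · rw [← hg]; exact hinv g a b h.1
      · intro hb
        rw [← hgA, mem_image] at hb
        obtain ⟨c, hc, hcb⟩ := hb
        have : c = b := MulAction.injective g hcb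
        exact h.2 (this ▸ hc)
    · intro b _ c _ h
      exact MulAction.injective g h
    · intro b h
      simp only [mem_filter, mem_univ, true_and] at h
      refine ⟨g⁻¹ • b, ?_, smul_inv_smul g b⟩
      simp only [mem_filter, mem_univ, true_and]
      refine ⟨?_, ?_⟩
      · rw [← adj_smul_iff H hinv g, smul_inv_smul, hg]; exact h.1
      · intro hb
        apply h.2
        rw [← hgA]
        exact mem_image.2 ⟨g⁻¹ • b, hb, smul_inv_smul g b⟩
  obtain ⟨a0, ha0⟩ := hAne
  have hbdA : bd H A = A.card * out a0 := by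
    unfold bd
    have e1 : (univ : Finset (V × V)).filter (fun e => e.1 ∈ A ∧ e.2 ∉ A ∧ H.Adj e.1 e.2) =
        A.biUnion (fun a => (univ.filter (fun b => H.Adj a b ∧ b ∉ A)).image (fun b => (a, b))) := by
      ext ⟨a, b⟩
      simp only [mem_filter, mem_univ, true_and, mem_biUnion, mem_image, Prod.mk.injEq]
      constructor
      · rintro ⟨h1, h2, h3⟩
        exact ⟨a, h1, b, ⟨h3, h2⟩, rfl, rfl⟩
      · rintro ⟨a', h1, b', ⟨h3, h2⟩, rfl, rfl⟩
        exact ⟨h1, h2, h3⟩
    rw [e1, Finset.card_biUnion]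
    · rw [Finset.sum_congr rfl (g := fun _ => out a0)]
      · simp
      · intro a ha
        rw [Finset.card_image_of_injective _ (fun b c h => (Prod.mk.inj h).2)]
        exact hout a ha a0 ha0
    · intro a _ a' _ haa'
      rw [Function.onFun, Finset.disjoint_left]
      intro e he he'
      rw [mem_image] at he he'
      obtain ⟨b, _, rfl⟩ := he
      obtain ⟨b', _, h⟩ := he'
      exact haa' (Prod.mk.inj h).1.symm
  -- there is an edge leaving A
  have hbdpos : 1 ≤ bd H A := by
    by_contra h0
    have h0' : bd H A = 0 := by omega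
    have hno : ∀ a b, a ∈ A → H.Adj a b → b ∈ A := by
      intro a b ha hab
      by_contra hb
      unfold bd at h0'
      rw [Finset.card_eq_zero, Finset.filter_eq_empty_iff] at h0'
      exact h0' (mem_univ (a, b)) ⟨ha, hb, hab⟩
    apply hAu
    apply Finset.eq_univ_of_forall
    intro x
    obtain ⟨q⟩ := hconn a0 x
    have key : ∀ (c d : V) (q : H.Walk c d), c ∈ A → d ∈ A := by
      intro c d q
      induction q with
      | nil => exact id
      | cons hcd _ ih => exact fun hc => ih (hno _ _ hc hcd)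
    exact key _ _ q ha0
  have hd : 1 ≤ out a0 := by
    rcases Nat.eq_zero_or_pos (out a0) with h | h
    · rw [h, mul_zero] at hbdA
      omega
    · exact h
  -- the degree
  have hdeg : dg H v0 = dg H a0 := by
    obtain ⟨g, hg⟩ := htr a0 v0
    rw [← hg, dg_smul H hinv]
  have hin : dg H a0 ≤ (A.card - 1) + out a0 := by
    unfold dg
    have e1 : univ.filter (fun b => H.Adj a0 b) ⊆ A.erase a0 ∪ univ.filter (fun b => H.Adj a0 b ∧ b ∉ A) := by
      intro b hb
      simp only [mem_filter, mem_univ, true_and, mem_union, mem_erase] at hb ⊢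
      by_cases hbA : b ∈ A
      · left
        exact ⟨hb.ne', hbA⟩
      · exact Or.inr ⟨hb, hbA⟩
    refine (Finset.card_le_card e1).trans ((Finset.card_union_le _ _).trans ?_)
    rw [Finset.card_erase_of_mem ha0]
  have hApos : 1 ≤ A.card := Finset.card_pos.2 ⟨a0, ha0⟩
  rw [hdeg, hbdA]
  obtain ⟨c, hc⟩ := Nat.exists_eq_add_of_le hApos
  obtain ⟨d, hd'⟩ := Nat.exists_eq_add_of_le hd
  rw [hc, hd'] at hin ⊢
  have h1 : 1 + c - 1 = c := by omega
  rw [h1] at hin
  have h2 : (1 + c) * (1 + d) = c + (1 + d) + c * d := by ring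
  rw [h2]
  omega

end Pool.Agent.R546.HC
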