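import Mathlib

/-!
# Merging the cycles of a permutation (helper546)
-/

set_option autoImplicit false

namespace Pool.Agent.R546.HC

open Equiv Equiv.Perm

theorem merge_aux {α : Type} [Finite α] [DecidableEq α] (σ : Perm α) (u v : α) (h : ¬ σ.SameCycle u v) :
    ∀ x, σ.SameCycle v x → (σ * swap u v).SameCycle u x := by
  have hu : (σ * swap u v) u = σ v := by simp
  have hv : (σ * swap u v) v = σ u := by simp
  have key : ∀ n : ℕ, (σ * swap u v).SameCycle u ((σ ^ (n + 1)) v) := by
    intro n
    induction n with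
    | zero =>
      rw [zero_add, pow_one, ← hu]
      exact sameCycle_apply_right.2 (SameCycle.refl _ _)
    | succ n ih =>
      rw [pow_succ', mul_apply]
      by_cases hw : (σ ^ (n + 1)) v = v
      · rw [hw, ← hu]
        exact sameCycle_apply_right.2 (SameCycle.refl _ _)
      · have hwu : (σ ^ (n + 1)) v ≠ u := by
          intro h1
          apply h
          have h2 : σ.SameCycle v ((σ ^ (n + 1)) v) := ⟨(n + 1 : ℕ), by rw [zpow_natCast]⟩
          rw [h1] at h2
          exact h2.symm
        have h3 : (σ * swap u v) ((σ ^ (n + 1)) v) = σ ((σ ^ (n + 1)) v) := by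
          rw [mul_apply, swap_apply_of_ne_of_ne hwu hw]
        rw [← h3]
        exact sameCycle_apply_right.2 ih
  intro x hx
  obtain ⟨i, hi⟩ := hx.exists_nat_pow_eq
  obtain ⟨m, hm⟩ : ∃ m : ℕ, (σ ^ (m + 1)) v = x := by
    cases i with
    | zero =>
      have hord : 0 < orderOf σ := (isOfFinOrder_of_finite σ).orderOf_pos
      refine ⟨orderOf σ - 1, ?_⟩
      rw [Nat.sub_add_cancel hord, pow_orderOf_eq_one]
      simpa using hi
    | succ i => exact ⟨i, hi⟩
  rw [← hm]
  exact key m

/-- merging two cycles -/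
theorem merge {α : Type} [Finite α] [DecidableEq α] (σ : Perm α) (u v : α) (h : ¬ σ.SameCycle u v) :
    (∀ x y, σ.SameCycle x y → (σ * swap u v).SameCycle x y) ∧ (σ * swap u v).SameCycle u v := by
  have h1 := merge_aux σ u v h
  have h2 : ∀ x, σ.SameCycle u x → (σ * swap u v).SameCycle v x := by
    intro x hx
    rw [swap_comm]
    exact merge_aux σ v u (fun h' => h h'.symm) x hx
  have huv : (σ * swap u v).SameCycle u v := h1 v (SameCycle.refl _ _)
  refine ⟨fun x y hxy => ?_, huv⟩
  by_cases hvx : σ.SameCycle v x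
  · exact (h1 x hvx).symm.trans (h1 y (hvx.trans hxy))
  by_cases hux : σ.SameCycle u x
  · exact (h2 x hux).symm.trans (h2 y (hux.trans hxy))
  obtain ⟨i, hi⟩ := hxy.exists_nat_pow_eq
  have key : ∀ n : ℕ, ((σ * swap u v) ^ n) x = (σ ^ n) x := by
    intro n
    induction n with
    | zero => rfl
    | succ n ih =>
      rw [pow_succ', mul_apply, ih, pow_succ', mul_apply, mul_apply, swap_apply_of_ne_of_ne]
      · intro h3
        exact hux (SameCycle.symm ⟨(n : ℕ), by rw [zpow_natCast]; exact h3⟩)
      · intro h3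
        exact hvx (SameCycle.symm ⟨(n : ℕ), by rw [zpow_natCast]; exact h3⟩)
  refine ⟨(i : ℕ), ?_⟩
  rw [zpow_natCast, key]
  exact hi

/-- if two permutations agree on an invariant set then they have the same cycles there -/
theorem sameCycle_congr {α : Type} [Finite α] (π σ : Perm α) (S : α → Prop)
    (h1 : ∀ x, S x → S (π x)) (h2 : ∀ x, S x → σ x = π x) (x y : α) (hx : S x)
    (h : π.SameCycle x y) : σ.SameCycle x y := by
  obtain ⟨i, hi⟩ := h.exists_nat_pow_eq
  have key : ∀ n : ℕ, S ((π ^ n) x) ∧ (σ ^ n) x = (π ^ n) x := by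
    intro n
    induction n with
    | zero => exact ⟨hx, rfl⟩
    | succ n ih =>
      rw [pow_succ', mul_apply, pow_succ', mul_apply, ih.2]
      exact ⟨h1 _ ih.1, h2 _ ih.1⟩
  refine ⟨(i : ℕ), ?_⟩
  rw [zpow_natCast, (key i).2]
  exact hi

/-- points of different invariant sets are in different cycles -/
theorem not_sameCycle {α : Type} [Finite α] (σ : Perm α) (S : α → Prop)
    (h1 : ∀ x, S x → S (σ x)) (x y : α) (hx : S x) (hy : ¬ S y) : ¬ σ.SameCycle x y := by
  intro h
  obtain ⟨i, hi⟩ := h.exists_nat_pow_eq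
  have key : ∀ n : ℕ, S ((σ ^ n) x) := by
    intro n
    induction n with
    | zero => exact hx
    | succ n ih =>
      rw [pow_succ', mul_apply]
      exact h1 _ ih
  exact hy (hi ▸ key i)

end Pool.Agent.R546.HC
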