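import Mathlib
import Pool.Agent.R546.HC.Mader
import Pool.Agent.R546.HC.Merge

/-!
# Lifting spanning connected subgraphs of the coset graph to Hamiltonian cycles (helper546)
-/

set_option autoImplicit false
set_option linter.unusedSectionVars false

namespace Pool.Agent.R546.HC

open Finset Classical Equiv Equiv.Perm

section
variable {V : Type} [Fintype V]

theorem dgIn_lt_dg (R : SimpleGraph V) (W : Finset V) {Y Z : V} (hZ : Z ∉ W) (h : R.Adj Y Z) :
    dgIn R W Y + 1 ≤ dg R Y := by
  unfold dgIn dg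
  apply Nat.succ_le_of_lt
  apply Finset.card_lt_card
  refine ⟨fun w hw => ?_, fun h' => ?_⟩
  · simp only [mem_filter, mem_univ, true_and] at hw ⊢
    exact hw.1
  · have h1 := h' (Finset.mem_filter.2 ⟨mem_univ Z, h⟩)
    exact hZ (Finset.mem_filter.1 h1).2.2

theorem dgIn_lt (R : SimpleGraph V) (W W' : Finset V) {Y Z : V} (hZ : Z ∉ W) (hZ' : Z ∈ W')
    (hW : W ⊆ W') (h : R.Adj Y Z) : dgIn R W Y + 1 ≤ dgIn R W' Y := by
  unfold dgIn
  apply Nat.succ_le_of_lt
  apply Finset.card_lt_card
  refine ⟨fun w hw => ?_, fun h' => ?_⟩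
  · simp only [mem_filter, mem_univ, true_and] at hw ⊢
    exact ⟨hw.1, hW hw.2⟩
  · have h1 := h' (Finset.mem_filter.2 ⟨mem_univ Z, h, hZ'⟩)
    exact hZ (Finset.mem_filter.1 h1).2.2

theorem dgIn_mono (R : SimpleGraph V) (W W' : Finset V) (hW : W ⊆ W') (Y : V) :
    dgIn R W Y ≤ dgIn R W' Y := by
  unfold dgIn
  apply Finset.card_le_card
  intro w hw
  simp only [mem_filter, mem_univ, true_and] at hw ⊢
  exact ⟨hw.1, hW hw.2⟩

end

variable {G : Type} [Group G] [Finite G]

/-- a cyclic enumeration of the subgroup `K` with steps in `A`, where `K` normalises `A` -/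
structure Base (A : Set G) (K : Subgroup G) (k : ℕ) (p : ZMod k → G) : Prop where
  three : 3 ≤ k
  symm : ∀ a ∈ A, a⁻¹ ∈ A
  norm : ∀ x ∈ K, ∀ a ∈ A, x⁻¹ * a * x ∈ A
  inj : Function.Injective p
  range : ∀ g, g ∈ K ↔ ∃ i, p i = g
  step : ∀ i, (p i)⁻¹ * p (i + 1) ∈ A

/-- the coset graph -/
def cg (A : Set G) (hA : ∀ a ∈ A, a⁻¹ ∈ A) (K : Subgroup G) : SimpleGraph (G ⧸ K) where
  Adj Y Z := Y ≠ Z ∧ ∃ y : G, ∃ t ∈ A, (y : G ⧸ K) = Y ∧ ((y * t : G) : G ⧸ K) = Z
  symm := ⟨by
    rintro Y Z ⟨h, y, t, ht, rfl, rfl⟩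
    refine ⟨h.symm, y * t, t⁻¹, hA t ht, rfl, ?_⟩
    rw [mul_inv_cancel_right]⟩
  loopless := ⟨fun _ h => h.1 rfl⟩

section
variable {A : Set G} {K : Subgroup G} {k : ℕ} {p : ZMod k → G}

theorem Base.mem (B : Base A K k p) (i : ZMod k) : p i ∈ K := (B.range _).2 ⟨i, rfl⟩

theorem cg_adj (B : Base A K k p) {Y Z : G ⧸ K} (h : (cg A B.symm K).Adj Y Z) (y : G)
    (hy : (y : G ⧸ K) = Y) : ∃ t ∈ A, ((y * t : G) : G ⧸ K) = Z := by
  obtain ⟨_, y0, t, ht, h1, h2⟩ := h
  have h3 : y⁻¹ * y0 ∈ K := QuotientGroup.eq.1 (hy.trans h1.symm)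
  refine ⟨(y⁻¹ * y0) * t * (y⁻¹ * y0)⁻¹, ?_, ?_⟩
  · have := B.norm (y⁻¹ * y0)⁻¹ (K.inv_mem h3) t ht
    rwa [inv_inv] at this
  · rw [← h2, QuotientGroup.eq]
    have : (y * (y⁻¹ * y0 * t * (y⁻¹ * y0)⁻¹))⁻¹ * (y0 * t) = y⁻¹ * y0 := by group
    rw [this]
    exact h3

/-- the cyclic permutation of `K` -/
noncomputable def cyc (B : Base A K k p) : Perm G :=
  haveI := B
  Equiv.Perm.ofSubtype (p := fun g => g ∈ K)
    (((Equiv.ofBijective (fun i => (⟨p i, B.mem i⟩ : {g // g ∈ K}))
      ⟨fun i j h => B.inj (Subtype.ext_iff.1 h), fun ⟨g, hg⟩ => by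
        obtain ⟨i, hi⟩ := (B.range g).1 hg
        exact ⟨i, Subtype.ext hi⟩⟩).symm.trans (Equiv.addRight 1)).trans
      (Equiv.ofBijective (fun i => (⟨p i, B.mem i⟩ : {g // g ∈ K}))
      ⟨fun i j h => B.inj (Subtype.ext_iff.1 h), fun ⟨g, hg⟩ => by
        obtain ⟨i, hi⟩ := (B.range g).1 hg
        exact ⟨i, Subtype.ext hi⟩⟩))

theorem cyc_p (B : Base A K k p) (i : ZMod k) : cyc B (p i) = p (i + 1) := by
  unfold cyc
  rw [Equiv.Perm.ofSubtype_apply_of_mem _ (B.mem i)]
  simp only [Equiv.trans_apply]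
  have e : (Equiv.ofBijective (fun i => (⟨p i, B.mem i⟩ : {g // g ∈ K}))
      ⟨fun i j h => B.inj (Subtype.ext_iff.1 h), fun ⟨g, hg⟩ => by
        obtain ⟨i, hi⟩ := (B.range g).1 hg
        exact ⟨i, Subtype.ext hi⟩⟩).symm ⟨p i, B.mem i⟩ = i := by
    rw [Equiv.symm_apply_eq]
    rfl
  rw [e]
  rfl

theorem cyc_out (B : Base A K k p) {g : G} (hg : g ∉ K) : cyc B g = g := by
  unfold cyc
  exact Equiv.Perm.ofSubtype_apply_of_not_mem _ hg

/-- the cycle of the left coset of `z` -/
noncomputable def rho (B : Base A K k p) (z : G) : Perm G :=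
  ((Equiv.mulLeft z⁻¹).trans (cyc B)).trans (Equiv.mulLeft z)

theorem rho_p (B : Base A K k p) (z : G) (i : ZMod k) : rho B z (z * p i) = z * p (i + 1) := by
  unfold rho
  simp only [Equiv.trans_apply, Equiv.coe_mulLeft, inv_mul_cancel_left, cyc_p]

theorem rho_inv_p (B : Base A K k p) (z : G) (i : ZMod k) : (rho B z)⁻¹ (z * p (i + 1)) = z * p i := by
  rw [Equiv.Perm.inv_eq_iff_eq, rho_p]

theorem rho_out (B : Base A K k p) (z : G) {g : G} (hg : (g : G ⧸ K) ≠ (z : G ⧸ K)) :
    rho B z g = g := by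
  unfold rho
  simp only [Equiv.trans_apply, Equiv.coe_mulLeft]
  rw [cyc_out B, mul_inv_cancel_left]
  intro h
  exact hg (QuotientGroup.eq.2 h).symm

theorem rho_inv_out (B : Base A K k p) (z : G) {g : G} (hg : (g : G ⧸ K) ≠ (z : G ⧸ K)) :
    (rho B z)⁻¹ g = g := by
  rw [Equiv.Perm.inv_eq_iff_eq, rho_out B z hg]

theorem coset_mem (B : Base A K k p) {z g : G} (h : (g : G ⧸ K) = (z : G ⧸ K)) :
    ∃ i, g = z * p i := by
  obtain ⟨i, hi⟩ := (B.range _).1 (QuotientGroup.eq.1 h.symm)
  exact ⟨i, by rw [hi, mul_inv_cancel_left]⟩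

theorem coe_mul_p (B : Base A K k p) (z : G) (i : ZMod k) : ((z * p i : G) : G ⧸ K) = (z : G ⧸ K) := by
  symm
  rw [QuotientGroup.eq, inv_mul_cancel_left]
  exact B.mem i

theorem two_ne (B : Base A K k p) : (2 : ZMod k) ≠ 0 := by
  have := B.three
  intro h
  have h2 : ((2 : ℕ) : ZMod k) = 0 := by exact_mod_cast h
  rw [ZMod.natCast_eq_zero_iff] at h2
  have := Nat.le_of_dvd (by norm_num) h2
  omega

theorem one_ne (B : Base A K k p) : (1 : ZMod k) ≠ 0 := by
  intro h
  apply two_ne B
  rw [← one_add_one_eq_two, h, add_zero]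

theorem rho_same (B : Base A K k p) (z : G) (i : ZMod k) :
    (rho B z).SameCycle (z * p 0) (z * p i) := by
  have key : ∀ n : ℕ, (rho B z).SameCycle (z * p 0) (z * p ((n : ℕ) : ZMod k)) := by
    intro n
    induction n with
    | zero => simp [SameCycle.refl]
    | succ n ih =>
      rw [Nat.cast_succ, ← rho_p]
      exact sameCycle_apply_right.2 ih
  have hk : NeZero k := ⟨by have := B.three; omega⟩
  have := key i.val
  rwa [ZMod.natCast_zmod_val] at this

/-- the slot `i` of a coset is used by `π` -/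
def Slot (p : ZMod k → G) (π : Perm G) (b : G) (i : ZMod k) : Prop :=
  π (b * p i) = b * p (i + 1) ∨ π (b * p (i + 1)) = b * p i

/-- partial Hamiltonian cycles -/
structure Built [Fintype (ZMod k)] (A : Set G) (K : Subgroup G) (p : ZMod k → G) [Fintype (G ⧸ K)]
    (R : SimpleGraph (G ⧸ K)) (W : Finset (G ⧸ K)) (π : Perm G) (b : G ⧸ K → G) : Prop where
  base : ∀ Y ∈ W, ((b Y : G) : G ⧸ K) = Y
  out : ∀ g : G, (g : G ⧸ K) ∉ W → π g = g
  lab : ∀ g : G, (g : G ⧸ K) ∈ W → g⁻¹ * π g ∈ A
  one : ∀ g h : G, (g : G ⧸ K) ∈ W → (h : G ⧸ K) ∈ W → π.SameCycle g h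
  slots : ∀ Y ∈ W, k ≤ (univ.filter (fun i => Slot p π (b Y) i)).card + dgIn R W Y

theorem built_start [Fintype (ZMod k)] [Fintype (G ⧸ K)] (B : Base A K k p)
    (R : SimpleGraph (G ⧸ K)) : Built A K p R {((1 : G) : G ⧸ K)} (rho B 1) (fun _ => 1) := by
  constructor
  · intro Y hY
    rw [mem_singleton] at hY
    exact hY.symm
  · intro g hg
    rw [mem_singleton] at hg
    exact rho_out B 1 hg
  · intro g hg
    rw [mem_singleton] at hg
    obtain ⟨i, rfl⟩ := coset_mem B hg
    rw [rho_p]
    have := B.step i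
    simpa using this
  · intro g h hg hh
    rw [mem_singleton] at hg hh
    obtain ⟨i, rfl⟩ := coset_mem B hg
    obtain ⟨j, rfl⟩ := coset_mem B hh
    exact (rho_same B 1 i).symm.trans (rho_same B 1 j)
  · intro Y _
    have : univ.filter (fun i => Slot p (rho B 1) 1 i) = univ := by
      apply Finset.filter_true_of_mem
      intro i _
      exact Or.inl (rho_p B 1 i)
    rw [this, Finset.card_univ, ZMod.card]
    exact Nat.le_add_right _ _

theorem built_step [Fintype (ZMod k)] [Fintype (G ⧸ K)] (B : Base A K k p)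
    {R : SimpleGraph (G ⧸ K)} (hR : R ≤ cg A B.symm K) (hR3 : ∀ Y, dg R Y ≤ 3)
    {W : Finset (G ⧸ K)} {π : Perm G} {b : G ⧸ K → G} (hB : Built A K p R W π b)
    {Y Z : G ⧸ K} (hY : Y ∈ W) (hZ : Z ∉ W) (hYZ : R.Adj Y Z) :
    ∃ π' b', Built A K p R (insert Z W) π' b' := by
  -- an intact slot
  have hdg : dgIn R W Y + 1 ≤ dg R Y := dgIn_lt_dg R W hZ hYZ
  have hk3 := B.three
  have hslots := hB.slots Y hY
  have hY3 := hR3 Y
  have hpos : 0 < (univ.filter (fun i => Slot p π (b Y) i)).card := by omega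
  obtain ⟨i, hi⟩ := Finset.card_pos.1 hpos
  rw [mem_filter] at hi
  replace hi := hi.2
  -- the new coset
  obtain ⟨t, ht, htZ⟩ := cg_adj B (hR hYZ) (b Y) (hB.base Y hY)
  set b0 := b Y with hb0
  set z := b0 * t with hz
  have hYb : ((b0 : G) : G ⧸ K) = Y := hB.base Y hY
  have hYZne : Y ≠ Z := hYZ.ne
  -- the two cases in one
  obtain ⟨i1, i2, ρ, hπ, hρ, hρout, hρA, hρone, hi12, hρslot⟩ : ∃ (i1 i2 : ZMod k) (ρ : Perm G),
      π (b0 * p i1) = b0 * p i2 ∧ ρ (z * p i2) = z * p i1 ∧
      (∀ g : G, (g : G ⧸ K) ≠ Z → ρ g = g) ∧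
      (∀ g : G, (g : G ⧸ K) = Z → g⁻¹ * ρ g ∈ A ∧ ((ρ g : G) : G ⧸ K) = Z) ∧
      (∀ g h : G, (g : G ⧸ K) = Z → (h : G ⧸ K) = Z → ρ.SameCycle g h) ∧
      ((i1 = i ∧ i2 = i + 1) ∨ (i1 = i + 1 ∧ i2 = i)) ∧
      (∀ j, j ≠ i → (ρ (z * p j) = z * p (j + 1) ∧ j ≠ i2) ∨
        (ρ (z * p (j + 1)) = z * p j ∧ j + 1 ≠ i2)) := by
    rcases hi with hi | hi
    · refine ⟨i, i + 1, (rho B z)⁻¹, hi, rho_inv_p B z i, ?_, ?_, ?_, Or.inl ⟨rfl, rfl⟩, ?_⟩
      · intro g hg
        exact rho_inv_out B z (by rw [htZ]; exact hg)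
      · intro g hg
        obtain ⟨j, rfl⟩ := coset_mem B (hg.trans htZ.symm)
        have e : z * p j = z * p ((j - 1) + 1) := by rw [sub_add_cancel]
        rw [e, rho_inv_p]
        refine ⟨?_, (coe_mul_p B z _).trans htZ⟩
        have := B.symm _ (B.step (j - 1))
        rw [mul_inv_rev, inv_inv] at this
        have e2 : (z * p (j - 1 + 1))⁻¹ * (z * p (j - 1)) = (p (j - 1 + 1))⁻¹ * p (j - 1) := by group
        rw [e2]
        exact this
      · intro g h hg hh
        obtain ⟨j, rfl⟩ := coset_mem B (hg.trans htZ.symm)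
        obtain ⟨l, rfl⟩ := coset_mem B (hh.trans htZ.symm)
        rw [sameCycle_inv]
        exact (rho_same B z j).symm.trans (rho_same B z l)
      · intro j hj
        right
        exact ⟨rho_inv_p B z j, fun h => hj (add_right_cancel h)⟩
    · refine ⟨i + 1, i, rho B z, hi, rho_p B z i, ?_, ?_, ?_, Or.inr ⟨rfl, rfl⟩, ?_⟩
      · intro g hg
        exact rho_out B z (by rw [htZ]; exact hg)
      · intro g hg
        obtain ⟨j, rfl⟩ := coset_mem B (hg.trans htZ.symm)
        rw [rho_p]
        refine ⟨?_, (coe_mul_p B z _).trans htZ⟩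
        have e2 : (z * p j)⁻¹ * (z * p (j + 1)) = (p j)⁻¹ * p (j + 1) := by group
        rw [e2]
        exact B.step j
      · intro g h hg hh
        obtain ⟨j, rfl⟩ := coset_mem B (hg.trans htZ.symm)
        obtain ⟨l, rfl⟩ := coset_mem B (hh.trans htZ.symm)
        exact (rho_same B z j).symm.trans (rho_same B z l)
      · intro j hj
        left
        exact ⟨rho_p B z j, hj⟩
  -- invariance
  have hπW : ∀ g : G, (g : G ⧸ K) ∈ W → ((π g : G) : G ⧸ K) ∈ W := by
    intro g hg
    by_contra h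
    have h1 := hB.out _ h
    have h2 : π g = g := π.injective h1
    rw [h2] at h
    exact h hg
  have hWZ : ∀ g : G, (g : G ⧸ K) ∈ W → (g : G ⧸ K) ≠ Z := fun g hg h => hZ (h ▸ hg)
  set σ : Perm G := π * ρ with hσ
  have hσW : ∀ g : G, (g : G ⧸ K) ∈ W → σ g = π g := by
    intro g hg
    rw [hσ, mul_apply, hρout g (hWZ g hg)]
  have hσZ : ∀ g : G, (g : G ⧸ K) = Z → σ g = ρ g := by
    intro g hg
    rw [hσ, mul_apply]
    exact hB.out _ (by rw [(hρA g hg).2]; exact hZ)
  set u := b0 * p i1 with hu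
  set v := z * p i2 with hv
  have huY : (u : G ⧸ K) = Y := (coe_mul_p B b0 i1).trans hYb
  have huW : (u : G ⧸ K) ∈ W := by rw [huY]; exact hY
  have hvZ : (v : G ⧸ K) = Z := (coe_mul_p B z i2).trans htZ
  have hσu : σ u = b0 * p i2 := by rw [hσW u huW]; exact hπ
  have hσv : σ v = z * p i1 := by rw [hσZ v hvZ]; exact hρ
  have hnot : ¬ σ.SameCycle u v := by
    refine not_sameCycle σ (fun g => (g : G ⧸ K) ∈ W) ?_ u v huW (by rw [hvZ]; exact hZ)
    intro g hg
    show ((σ g : G) : G ⧸ K) ∈ W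
    rw [hσW g hg]
    exact hπW g hg
  obtain ⟨hm1, hm2⟩ := merge σ u v hnot
  set π' : Perm G := σ * swap u v with hπ'
  have hπ'u : π' u = z * p i1 := by rw [hπ', mul_apply, swap_apply_left, hσv]
  have hπ'v : π' v = b0 * p i2 := by rw [hπ', mul_apply, swap_apply_right, hσu]
  have hπ'o : ∀ g, g ≠ u → g ≠ v → π' g = σ g := by
    intro g h1 h2
    rw [hπ', mul_apply, swap_apply_of_ne_of_ne h1 h2]
  have hsW : ∀ g h : G, (g : G ⧸ K) ∈ W → (h : G ⧸ K) ∈ W → σ.SameCycle g h := by
    intro g h hg hh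
    exact sameCycle_congr π σ (fun g => (g : G ⧸ K) ∈ W) hπW hσW g h hg (hB.one g h hg hh)
  have hsZ : ∀ g h : G, (g : G ⧸ K) = Z → (h : G ⧸ K) = Z → σ.SameCycle g h := by
    intro g h hg hh
    exact sameCycle_congr ρ σ (fun g => (g : G ⧸ K) = Z) (fun g hg => (hρA g hg).2) hσZ g h hg
      (hρone g h hg hh)
  refine ⟨π', Function.update b Z z, ?_, ?_, ?_, ?_, ?_⟩
  · intro X hX
    rw [mem_insert] at hX
    by_cases hXZ : X = Z
    · rw [hXZ, Function.update_self]
      exact htZ
    · rw [Function.update_of_ne hXZ]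
      exact hB.base X (hX.resolve_left hXZ)
  · intro g hg
    rw [mem_insert, not_or] at hg
    have h1 : g ≠ u := fun h => hg.2 (h ▸ huW)
    have h2 : g ≠ v := fun h => hg.1 (h ▸ hvZ)
    rw [hπ'o g h1 h2, hσ, mul_apply, hρout g hg.1, hB.out g hg.2]
  · intro g hg
    rw [mem_insert] at hg
    by_cases h1 : g = u
    · rw [h1, hπ'u]
      have e : u⁻¹ * (z * p i1) = (p i1)⁻¹ * t * p i1 := by
        rw [hu, hz]; group
      rw [e]
      exact B.norm _ (B.mem i1) t ht
    by_cases h2 : g = v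
    · rw [h2, hπ'v]
      have e : v⁻¹ * (b0 * p i2) = (p i2)⁻¹ * t⁻¹ * p i2 := by
        rw [hv, hz]; group
      rw [e]
      exact B.norm _ (B.mem i2) t⁻¹ (B.symm t ht)
    rw [hπ'o g h1 h2]
    rcases hg with hg | hg
    · rw [hσZ g hg]
      exact (hρA g hg).1
    · rw [hσW g hg]
      exact hB.lab g hg
  · have hto : ∀ g : G, (g : G ⧸ K) ∈ insert Z W → π'.SameCycle g u := by
      intro g hg
      rw [mem_insert] at hg
      rcases hg with hg | hg
      · exact (hm1 _ _ (hsZ g v hg hvZ)).trans hm2.symm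
      · exact hm1 _ _ (hsW g u hg huW)
    intro g h hg hh
    exact (hto g hg).trans (hto h hh).symm
  · intro X hX
    rw [mem_insert] at hX
    by_cases hXZ : X = Z
    · -- the new coset
      rw [hXZ, Function.update_self]
      have h1 : univ.erase i ⊆ univ.filter (fun j => Slot p π' z j) := by
        intro j hj
        rw [mem_erase] at hj
        simp only [mem_filter, mem_univ, true_and]
        have hvz : ∀ l : ZMod k, (z * p l = v) → l = i2 := by
          intro l hl
          exact B.inj (mul_left_cancel hl)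
        have huz : ∀ l : ZMod k, z * p l ≠ u := by
          intro l hl
          have : ((z * p l : G) : G ⧸ K) = Y := by rw [hl, huY]
          rw [coe_mul_p B z l, htZ] at this
          exact hYZne this.symm
        rcases hρslot j hj.1 with ⟨h2, h3⟩ | ⟨h2, h3⟩
        · left
          rw [hπ'o _ (huz j) (fun h => h3 (hvz j h)), hσZ _ ((coe_mul_p B z j).trans htZ), h2]
        · right
          rw [hπ'o _ (huz _) (fun h => h3 (hvz _ h)), hσZ _ ((coe_mul_p B z _).trans htZ), h2]
      have h2 := Finset.card_le_card h1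
      have h3 := Finset.card_erase_add_one (mem_univ i)
      rw [Finset.card_univ, ZMod.card] at h3
      have h4 : 1 ≤ dgIn R (insert Z W) Z := by
        unfold dgIn
        apply Finset.card_pos.2
        refine ⟨Y, ?_⟩
        simp only [mem_filter, mem_univ, true_and, mem_insert]
        exact ⟨hYZ.symm, Or.inr hY⟩
      omega
    · have hXW : X ∈ W := hX.resolve_left hXZ
      rw [Function.update_of_ne hXZ]
      have hbX := hB.base X hXW
      have hold := hB.slots X hXW
      have hvb : ∀ l : ZMod k, b X * p l ≠ v := by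
        intro l hl
        have : ((b X * p l : G) : G ⧸ K) = Z := by rw [hl, hvZ]
        rw [coe_mul_p B _ l, hbX] at this
        exact hXZ this
      have hbW : ∀ l : ZMod k, ((b X * p l : G) : G ⧸ K) ∈ W := by
        intro l
        rw [coe_mul_p B _ l, hbX]
        exact hXW
      by_cases hXY : X = Y
      · -- the coset Y
        have hb : b X = b0 := by rw [hXY]
        have h1 : (univ.filter (fun j => Slot p π (b X) j)).erase i ⊆
            univ.filter (fun j => Slot p π' (b X) j) := by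
          intro j hj
          rw [mem_erase, mem_filter] at hj
          obtain ⟨hji, -, hj⟩ := hj
          simp only [mem_filter, mem_univ, true_and]
          rcases hj with hj | hj
          · left
            by_cases hc : b X * p j = u
            · exfalso
              rw [hb] at hc hj
              have e1 : j = i1 := B.inj (mul_left_cancel hc)
              rw [hc, hu, hπ] at hj
              have e2 : i2 = j + 1 := B.inj (mul_left_cancel hj)
              rcases hi12 with ⟨e3, e4⟩ | ⟨e3, e4⟩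
              · exact hji (e1.trans e3)
              · apply two_ne B
                rw [e1, e3, e4] at e2
                have : i + (1 + 1) = i + 0 := by rw [add_zero, ← add_assoc]; exact e2.symm
                rw [← one_add_one_eq_two]
                exact add_left_cancel this
            · rw [hπ'o _ hc (hvb j), hσW _ (hbW j)]
              exact hj
          · right
            by_cases hc : b X * p (j + 1) = u
            · exfalso
              rw [hb] at hc hj
              have e1 : j + 1 = i1 := B.inj (mul_left_cancel hc)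
              rw [hc, hu, hπ] at hj
              have e2 : i2 = j := B.inj (mul_left_cancel hj)
              rcases hi12 with ⟨e3, e4⟩ | ⟨e3, e4⟩
              · apply two_ne B
                rw [← e2, e4, e3] at e1
                have : i + (1 + 1) = i + 0 := by rw [add_zero, ← add_assoc]; exact e1
                rw [← one_add_one_eq_two]
                exact add_left_cancel this
              · exact hji (e2.symm.trans e4)
            · rw [hπ'o _ hc (hvb _), hσW _ (hbW _)]
              exact hj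
        have h2 := Finset.card_le_card h1
        have h3 : (univ.filter (fun j => Slot p π (b X) j)).card ≤
            ((univ.filter (fun j => Slot p π (b X) j)).erase i).card + 1 := by
          have := Finset.pred_card_le_card_erase (s := univ.filter (fun j => Slot p π (b X) j)) (a := i)
          omega
        have h4 : dgIn R W X + 1 ≤ dgIn R (insert Z W) X := dgIn_lt R W _ hZ
            (mem_insert_self Z W) (subset_insert Z W) (by rw [hXY]; exact hYZ)
        omega
      · -- the other cosets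
        have hub : ∀ l : ZMod k, b X * p l ≠ u := by
          intro l hl
          have : ((b X * p l : G) : G ⧸ K) = Y := by rw [hl, huY]
          rw [coe_mul_p B _ l, hbX] at this
          exact hXY this
        have h1 : univ.filter (fun j => Slot p π (b X) j) ⊆ univ.filter (fun j => Slot p π' (b X) j) := by
          intro j hj
          simp only [mem_filter, mem_univ, true_and] at hj ⊢
          rcases hj with hj | hj
          · left
            rw [hπ'o _ (hub j) (hvb j), hσW _ (hbW j)]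
            exact hj
          · right
            rw [hπ'o _ (hub _) (hvb _), hσW _ (hbW _)]
            exact hj
        have h2 := Finset.card_le_card h1
        have h3 : dgIn R W X ≤ dgIn R (insert Z W) X := dgIn_mono R _ _ (subset_insert _ _) X
        omega

/-- the Hamiltonian cycle, as a permutation -/
theorem lift (B : Base A K k p) (hgen : Subgroup.closure A = ⊤) :
    ∃ π : Perm G, (∀ g, g⁻¹ * π g ∈ A) ∧ ∀ g h, π.SameCycle g h := by
  have hk : NeZero k := ⟨by have := B.three; omega⟩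
  let _ : Fintype (G ⧸ K) := Fintype.ofFinite _
  set H := cg A B.symm K with hH
  -- the coset graph is connected
  have hconn1 : ∀ g : G, H.Reachable ((1 : G) : G ⧸ K) (g : G ⧸ K) := by
    intro g
    have hg : g ∈ Subgroup.closure A := by rw [hgen]; exact Subgroup.mem_top g
    have key : ∀ y : G, H.Reachable (y : G ⧸ K) ((y * g : G) : G ⧸ K) := by
      induction hg using Subgroup.closure_induction with
      | mem t ht =>
        intro y
        by_cases h : (y : G ⧸ K) = ((y * t : G) : G ⧸ K)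
        · rw [← h]
        · exact SimpleGraph.Adj.reachable (G := H) ⟨h, y, t, ht, rfl, rfl⟩
      | one =>
        intro y
        rw [mul_one]
      | mul a b _ _ iha ihb =>
        intro y
        rw [← mul_assoc]
        exact (iha y).trans (ihb (y * a))
      | inv a _ iha =>
        intro y
        have := iha (y * a⁻¹)
        rw [inv_mul_cancel_right] at this
        exact this.symm
    have := key 1
    rwa [one_mul] at this
  have hconn : ∀ X Y : G ⧸ K, H.Reachable X Y := by
    intro X Y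
    obtain ⟨x, rfl⟩ := QuotientGroup.mk_surjective X
    obtain ⟨y, rfl⟩ := QuotientGroup.mk_surjective Y
    exact (hconn1 x).symm.trans (hconn1 y)
  have htr : ∀ X Y : G ⧸ K, ∃ g : G, g • X = Y := fun X Y => MulAction.exists_smul_eq G X Y
  have hinv : ∀ (g : G) (X Y : G ⧸ K), H.Adj X Y → H.Adj (g • X) (g • Y) := by
    rintro g X Y ⟨h, y, t, ht, rfl, rfl⟩
    refine ⟨fun h' => h (MulAction.injective g h'), g * y, t, ht, rfl, ?_⟩
    rw [mul_assoc]
    rfl
  obtain ⟨R, hRH, hRc, hR3⟩ : ∃ R : SimpleGraph (G ⧸ K), R ≤ H ∧ (∀ a b, R.Reachable a b) ∧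
      ∀ v, dg R v ≤ 3 := by
    by_cases hD : 1 ≤ dg H ((1 : G) : G ⧸ K)
    · refine win H (dg H ((1 : G) : G ⧸ K)) hD ?_ ?_
      · intro X
        obtain ⟨g, hg⟩ := htr ((1 : G) : G ⧸ K) X
        rw [← hg, dg_smul H hinv]
      · intro W h1 h2
        exact mader htr H hinv hconn _ W h1 h2
    · refine ⟨H, le_rfl, hconn, ?_⟩
      intro X
      obtain ⟨g, hg⟩ := htr ((1 : G) : G ⧸ K) X
      rw [← hg, dg_smul H hinv]
      omega
  -- build
  let P : Finset (G ⧸ K) → Prop := fun W => W.Nonempty ∧ ∃ π b, Built A K p R W π b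
  have hne : (univ.filter P).Nonempty :=
    ⟨{((1 : G) : G ⧸ K)}, mem_filter.2 ⟨mem_univ _, ⟨_, mem_singleton_self _⟩, _, _, built_start B R⟩⟩
  obtain ⟨W, hW, hWmax⟩ := Finset.exists_max_image (univ.filter P) Finset.card hne
  obtain ⟨-, ⟨X0, hX0⟩, π, b, hb⟩ := mem_filter.1 hW
  have hWu : W = univ := by
    by_contra hWu
    have : ∃ Y Z, Y ∈ W ∧ Z ∉ W ∧ R.Adj Y Z := by
      by_contra hno
      push Not at hno
      apply hWu
      apply Finset.eq_univ_of_forall
      intro X
      obtain ⟨q⟩ := hRc X0 X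
      have key : ∀ (c d : G ⧸ K) (q : R.Walk c d), c ∈ W → d ∈ W := by
        intro c d q
        induction q with
        | nil => exact id
        | @cons c e d hce _ ih =>
          intro hc
          apply ih
          by_contra he
          exact hno c e hc he hce
      exact key _ _ q hX0
    obtain ⟨Y, Z, hY, hZ, hYZ⟩ := this
    obtain ⟨π', b', hb'⟩ := built_step B hRH hR3 hb hY hZ hYZ
    have := hWmax (insert Z W) (mem_filter.2 ⟨mem_univ _, insert_nonempty _ _, π', b', hb'⟩)
    rw [card_insert_of_notMem hZ] at this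
    omega
  refine ⟨π, fun g => hb.lab g (by rw [hWu]; exact mem_univ _), fun g h => hb.one g h ?_ ?_⟩
  · rw [hWu]; exact mem_univ _
  · rw [hWu]; exact mem_univ _

end

end Pool.Agent.R546.HC
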