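import Mathlib
import Pool.Agent.R546.HC.Lift

/-!
# The base subgroup and the listing sequence (helper546)
-/

set_option autoImplicit false
set_option linter.unusedSectionVars false

namespace Pool.Agent.R546.HC

open Equiv Equiv.Perm

variable {G : Type} [Group G] [Finite G]

theorem norm_pow {A : Set G} {s : G} (hs : ∀ a ∈ A, s⁻¹ * a * s ∈ A) (n : ℕ) :
    ∀ a ∈ A, (s ^ n)⁻¹ * a * s ^ n ∈ A := by
  induction n with
  | zero => intro a ha; simpa using ha
  | succ n ih =>
    intro a ha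
    have h1 := hs _ (ih a ha)
    have e : (s ^ (n + 1))⁻¹ * a * s ^ (n + 1) = s⁻¹ * ((s ^ n)⁻¹ * a * s ^ n) * s := by
      rw [pow_succ]; group
    rw [e]
    exact h1

/-- an element of order at least three -/
theorem base_cyclic (A : Set G) (hsymm : ∀ a ∈ A, a⁻¹ ∈ A) (s : G) (hsA : s ∈ A)
    (hs : ∀ a ∈ A, s⁻¹ * a * s ∈ A) (h3 : 3 ≤ orderOf s) :
    ∃ (K : Subgroup G) (k : ℕ) (p : ZMod k → G), Base A K k p := by
  have hne : NeZero (orderOf s) := ⟨by omega⟩
  have hfin : IsOfFinOrder s := isOfFinOrder_of_finite s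
  refine ⟨Subgroup.zpowers s, orderOf s, fun i => s ^ i.val, ⟨h3, hsymm, ?_, ?_, ?_, ?_⟩⟩
  · intro x hx a ha
    rw [← hfin.mem_powers_iff_mem_zpowers] at hx
    obtain ⟨n, rfl⟩ := hx
    exact norm_pow hs n a ha
  · intro i j hij
    have h1 := pow_injOn_Iio_orderOf (x := s) (Set.mem_Iio.2 (ZMod.val_lt i))
      (Set.mem_Iio.2 (ZMod.val_lt j)) hij
    exact ZMod.val_injective _ h1
  · intro g
    constructor
    · intro hg
      rw [← hfin.mem_powers_iff_mem_zpowers] at hg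
      obtain ⟨n, rfl⟩ := hg
      refine ⟨(n : ZMod (orderOf s)), ?_⟩
      show s ^ ((n : ZMod (orderOf s)).val) = s ^ n
      rw [ZMod.val_natCast, pow_mod_orderOf]
    · rintro ⟨i, rfl⟩
      exact Subgroup.npow_mem_zpowers s _
  · intro i
    have h1 : (i + 1).val = (i.val + 1) % orderOf s := by
      rw [ZMod.val_add]
      congr 2
      have : Fact (1 < orderOf s) := ⟨by omega⟩
      exact ZMod.val_one _
    show (s ^ i.val)⁻¹ * s ^ (i + 1).val ∈ A
    rw [h1, pow_mod_orderOf, pow_succ, inv_mul_cancel_left]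
    exact hsA

/-- two involutions -/
theorem base_dihedral (A : Set G) (hsymm : ∀ a ∈ A, a⁻¹ ∈ A) (s t : G) (hsA : s ∈ A) (htA : t ∈ A)
    (hs : ∀ a ∈ A, s⁻¹ * a * s ∈ A) (ht : ∀ a ∈ A, t⁻¹ * a * t ∈ A) (hs2 : s * s = 1)
    (ht2 : t * t = 1) (hs1 : s ≠ 1) (ht1 : t ≠ 1) (hst : s ≠ t) :
    ∃ (K : Subgroup G) (k : ℕ) (p : ZMod k → G), Base A K k p := by
  have hsi : s⁻¹ = s := inv_eq_of_mul_eq_one_left hs2
  have hti : t⁻¹ = t := inv_eq_of_mul_eq_one_left ht2
  set w := s * t with hw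
  have hwn : ∀ a ∈ A, w⁻¹ * a * w ∈ A := by
    intro a ha
    have h1 := ht _ (hs a ha)
    have e : w⁻¹ * a * w = t⁻¹ * (s⁻¹ * a * s) * t := by rw [hw]; group
    rw [e]; exact h1
  have hw1 : w ≠ 1 := by
    intro h
    have : s = t⁻¹ := eq_inv_of_mul_eq_one_left h
    rw [hti] at this
    exact hst this
  have hconj : s * w * s⁻¹ = w⁻¹ := by
    rw [hw, mul_inv_rev, hsi, hti, ← mul_assoc, hs2, one_mul]
  have hsw : ∀ b : ℤ, s * w ^ b = w ^ (-b) * s := by
    intro b
    have h1 : s * w ^ b * s⁻¹ = (s * w * s⁻¹) ^ b := (conj_zpow).symm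
    rw [hconj, inv_zpow, ← zpow_neg] at h1
    rw [← h1, inv_mul_cancel_right]
  have hsC : ∀ j : ℤ, s ≠ w ^ j := by
    intro j hj
    have hcomm : s * w = w * s := by
      rw [hj]
      exact ((Commute.refl w).zpow_left j).eq
    have hww : w * w = 1 := by
      have h1 : s * w * s⁻¹ = w := by rw [hcomm, mul_inv_cancel_right]
      rw [hconj] at h1
      calc w * w = w * w⁻¹ := by rw [h1]
        _ = 1 := mul_inv_cancel w
    rcases Int.even_or_odd j with ⟨l, hl⟩ | ⟨l, hl⟩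
    · have : w ^ j = 1 := by
        rw [hl, ← two_mul, zpow_mul]
        have : w ^ (2 : ℤ) = 1 := by rw [zpow_ofNat, pow_two, hww]
        rw [this, one_zpow]
      exact hs1 (hj.trans this)
    · have : w ^ j = w := by
        rw [hl, zpow_add, zpow_mul, zpow_one]
        have : w ^ (2 : ℤ) = 1 := by rw [zpow_ofNat, pow_two, hww]
        rw [this, one_zpow, one_mul]
      rw [this] at hj
      have h2 : s * 1 = s * t := by rw [mul_one, ← hw]; exact hj
      exact ht1 (mul_left_cancel h2).symm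
  have hm : 2 ≤ orderOf w := by
    have h1 : 0 < orderOf w := (isOfFinOrder_of_finite w).orderOf_pos
    have h2 : orderOf w ≠ 1 := fun h => hw1 (orderOf_eq_one_iff.1 h)
    omega
  set m := orderOf w with hmdef
  have hwm : w ^ m = 1 := pow_orderOf_eq_one w
  have hwmz : ∀ a : ℤ, ∃ b : ℕ, b < m ∧ w ^ a = w ^ b := by
    intro a
    have hmpos : (0 : ℤ) < m := by omega
    refine ⟨(a % m).toNat, ?_, ?_⟩
    · have h1 := Int.emod_lt_of_pos a hmpos
      have h2 := Int.emod_nonneg a hmpos.ne'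
      omega
    · have h2 := Int.emod_nonneg a hmpos.ne'
      have h3 : ((a % m).toNat : ℤ) = a % m := Int.toNat_of_nonneg h2
      rw [← zpow_natCast, h3]
      exact (zpow_mod_orderOf w a).symm
  let K : Subgroup G :=
    { carrier := {g | ∃ a : ℤ, g = w ^ a ∨ g = w ^ a * s}
      one_mem' := ⟨0, Or.inl (by simp)⟩
      mul_mem' := by
        rintro x y ⟨a, rfl | rfl⟩ ⟨b, rfl | rfl⟩
        · exact ⟨a + b, Or.inl (by rw [zpow_add])⟩
        · exact ⟨a + b, Or.inr (by rw [zpow_add, mul_assoc])⟩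
        · exact ⟨a + -b, Or.inr (by rw [mul_assoc, hsw, zpow_add, mul_assoc])⟩
        · refine ⟨a + -b, Or.inl ?_⟩
          rw [mul_assoc, ← mul_assoc s, hsw, mul_assoc (w ^ (-b)), hs2, mul_one, zpow_add]
      inv_mem' := by
        rintro x ⟨a, rfl | rfl⟩
        · exact ⟨-a, Or.inl (by rw [zpow_neg])⟩
        · refine ⟨a, Or.inr ?_⟩
          rw [mul_inv_rev, hsi, ← zpow_neg, hsw, neg_neg] }
  have hK : ∀ g, g ∈ K ↔ ∃ a : ℤ, g = w ^ a ∨ g = w ^ a * s := fun g => Iff.rfl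
  have hne : NeZero (2 * m) := ⟨by omega⟩
  refine ⟨K, 2 * m, fun i => w ^ (i.val / 2) * s ^ (i.val % 2), ⟨by omega, hsymm, ?_, ?_, ?_, ?_⟩⟩
  · intro x hx a ha
    obtain ⟨c, hc⟩ := (hK x).1 hx
    obtain ⟨b, -, hb⟩ := hwmz c
    rw [hb] at hc
    rcases hc with rfl | rfl
    · exact norm_pow hwn b a ha
    · have h1 := hs _ (norm_pow hwn b a ha)
      have e : (w ^ b * s)⁻¹ * a * (w ^ b * s) = s⁻¹ * ((w ^ b)⁻¹ * a * w ^ b) * s := by group
      rw [e]; exact h1
  · intro i j hij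
    apply ZMod.val_injective
    have hi := ZMod.val_lt i
    have hj := ZMod.val_lt j
    have hi2 : i.val / 2 < m := by omega
    have hj2 : j.val / 2 < m := by omega
    have hinj : ∀ a b : ℕ, a < m → b < m → w ^ a = w ^ b → a = b := fun a b ha hb h =>
      pow_injOn_Iio_orderOf (x := w) (Set.mem_Iio.2 ha) (Set.mem_Iio.2 hb) h
    have hij' : w ^ (i.val / 2) * s ^ (i.val % 2) = w ^ (j.val / 2) * s ^ (j.val % 2) := hij
    rcases Nat.mod_two_eq_zero_or_one i.val with h1 | h1 <;>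
      rcases Nat.mod_two_eq_zero_or_one j.val with h2 | h2 <;> rw [h1, h2] at hij'
    · rw [pow_zero, mul_one, mul_one] at hij'
      have := hinj _ _ hi2 hj2 hij'
      omega
    · exfalso
      rw [pow_zero, mul_one, pow_one] at hij'
      apply hsC (-(j.val / 2 : ℕ) + (i.val / 2 : ℕ))
      rw [zpow_add, zpow_neg, zpow_natCast, zpow_natCast, hij', inv_mul_cancel_left]
    · exfalso
      rw [pow_zero, mul_one, pow_one] at hij'
      apply hsC (-(i.val / 2 : ℕ) + (j.val / 2 : ℕ))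
      rw [zpow_add, zpow_neg, zpow_natCast, zpow_natCast, ← hij', inv_mul_cancel_left]
    · have := hinj _ _ hi2 hj2 (mul_right_cancel hij')
      omega
  · intro g
    rw [hK]
    constructor
    · rintro ⟨a, ha⟩
      obtain ⟨b, hb, hab⟩ := hwmz a
      rw [hab] at ha
      rcases ha with rfl | rfl
      · refine ⟨((2 * b : ℕ) : ZMod (2 * m)), ?_⟩
        show w ^ (((2 * b : ℕ) : ZMod (2 * m)).val / 2) * s ^ (((2 * b : ℕ) : ZMod (2 * m)).val % 2) = w ^ b
        rw [ZMod.val_natCast_of_lt (by omega)]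
        have h1 : 2 * b / 2 = b := by omega
        have h2 : 2 * b % 2 = 0 := by omega
        rw [h1, h2, pow_zero, mul_one]
      · refine ⟨((2 * b + 1 : ℕ) : ZMod (2 * m)), ?_⟩
        show w ^ (((2 * b + 1 : ℕ) : ZMod (2 * m)).val / 2) *
          s ^ (((2 * b + 1 : ℕ) : ZMod (2 * m)).val % 2) = w ^ b * s
        rw [ZMod.val_natCast_of_lt (by omega)]
        have h1 : (2 * b + 1) / 2 = b := by omega
        have h2 : (2 * b + 1) % 2 = 1 := by omega
        rw [h1, h2, pow_one]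
    · rintro ⟨i, rfl⟩
      refine ⟨((i.val / 2 : ℕ) : ℤ), ?_⟩
      rw [zpow_natCast]
      rcases Nat.mod_two_eq_zero_or_one i.val with h1 | h1
      · left; show w ^ (i.val / 2) * s ^ (i.val % 2) = _; rw [h1, pow_zero, mul_one]
      · right; show w ^ (i.val / 2) * s ^ (i.val % 2) = _; rw [h1, pow_one]
  · intro i
    have hi := ZMod.val_lt i
    have h1 : (i + 1).val = (i.val + 1) % (2 * m) := by
      rw [ZMod.val_add]
      congr 2
      have : Fact (1 < 2 * m) := ⟨by omega⟩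
      exact ZMod.val_one _
    show (w ^ (i.val / 2) * s ^ (i.val % 2))⁻¹ * (w ^ ((i + 1).val / 2) * s ^ ((i + 1).val % 2)) ∈ A
    rw [h1]
    rcases Nat.mod_two_eq_zero_or_one i.val with h2 | h2
    · have h3 : (i.val + 1) % (2 * m) = i.val + 1 := Nat.mod_eq_of_lt (by omega)
      have h4 : (i.val + 1) / 2 = i.val / 2 := by omega
      have h5 : (i.val + 1) % 2 = 1 := by omega
      rw [h3, h4, h5, h2, pow_zero, mul_one, pow_one, inv_mul_cancel_left]
      exact hsA
    · have h6 : w ^ ((i.val + 1) % (2 * m) / 2) = w ^ (i.val / 2 + 1) ∧ (i.val + 1) % (2 * m) % 2 = 0 := by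
        by_cases hlt : i.val + 1 < 2 * m
        · have h3 : (i.val + 1) % (2 * m) = i.val + 1 := Nat.mod_eq_of_lt hlt
          rw [h3]
          have h4 : (i.val + 1) / 2 = i.val / 2 + 1 := by omega
          rw [h4]
          exact ⟨rfl, by omega⟩
        · have h3 : i.val + 1 = 2 * m := by omega
          have h4 : i.val / 2 + 1 = m := by omega
          rw [h3, h4, Nat.mod_self, hwm]
          simp
      rw [h6.1, h6.2, h2, pow_zero, mul_one, pow_one, mul_inv_rev, mul_assoc, pow_succ,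
        inv_mul_cancel_left, hw, ← mul_assoc, inv_mul_cancel, one_mul]
      exact htA

/-- the base subgroup -/
theorem exists_base (A : Set G) (hsymm : ∀ a ∈ A, a⁻¹ ∈ A)
    (h3 : 3 ≤ Nat.card (Subgroup.closure {s | s ∈ A ∧ ∀ a ∈ A, s⁻¹ * a * s ∈ A})) :
    ∃ (K : Subgroup G) (k : ℕ) (p : ZMod k → G), Base A K k p := by
  by_cases hc : ∃ s, s ∈ A ∧ (∀ a ∈ A, s⁻¹ * a * s ∈ A) ∧ 3 ≤ orderOf s
  · obtain ⟨s, hsA, hs, hs3⟩ := hc
    exact base_cyclic A hsymm s hsA hs hs3
  push Not at hc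
  have hord : ∀ s, s ∈ A → (∀ a ∈ A, s⁻¹ * a * s ∈ A) → s * s = 1 := by
    intro s h1 h2
    have h4 := hc s h1 h2
    have h5 : 0 < orderOf s := (isOfFinOrder_of_finite s).orderOf_pos
    have h6 : orderOf s = 1 ∨ orderOf s = 2 := by omega
    rcases h6 with h6 | h6
    · rw [orderOf_eq_one_iff.1 h6, one_mul]
    · have := pow_orderOf_eq_one s
      rw [h6, pow_two] at this
      exact this
  by_cases hex : ∃ s t, (s ∈ A ∧ ∀ a ∈ A, s⁻¹ * a * s ∈ A) ∧ (t ∈ A ∧ ∀ a ∈ A, t⁻¹ * a * t ∈ A) ∧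
      s ≠ 1 ∧ t ≠ 1 ∧ s ≠ t
  · obtain ⟨s, t, ⟨h1, h2⟩, ⟨h4, h5⟩, h6, h7, h8⟩ := hex
    exact base_dihedral A hsymm s t h1 h4 h2 h5 (hord s h1 h2) (hord t h4 h5) h6 h7 h8
  exfalso
  have hsub : ∃ s0 : G, s0 * s0 = 1 ∧ {s | s ∈ A ∧ ∀ a ∈ A, s⁻¹ * a * s ∈ A} ⊆ {1, s0} := by
    by_cases h1 : ∃ s, (s ∈ A ∧ ∀ a ∈ A, s⁻¹ * a * s ∈ A) ∧ s ≠ 1
    · obtain ⟨s, h2, h4⟩ := h1
      refine ⟨s, hord s h2.1 h2.2, ?_⟩
      intro t ht
      by_cases ht1 : t = 1
      · exact Or.inl ht1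
      · right
        by_contra hts
        exact hex ⟨s, t, h2, ht, h4, ht1, fun h => hts h.symm⟩
    · refine ⟨1, by simp, ?_⟩
      intro t ht
      by_contra h2
      exact h1 ⟨t, ht, fun h => h2 (Or.inl h)⟩
  obtain ⟨s0, hs0, hsub⟩ := hsub
  have hle : Subgroup.closure {s | s ∈ A ∧ ∀ a ∈ A, s⁻¹ * a * s ∈ A} ≤ Subgroup.zpowers s0 := by
    rw [Subgroup.closure_le]
    intro t ht
    rcases hsub ht with h | h
    · rw [h]; exact Subgroup.one_mem _
    · rw [h]; exact Subgroup.mem_zpowers s0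
  have h1 := Nat.card_le_card_of_injective _ (Subgroup.inclusion_injective hle)
  rw [Nat.card_zpowers] at h1
  have h2 : orderOf s0 ≤ 2 := by
    have : s0 ^ 2 = 1 := by rw [pow_two, hs0]
    exact Nat.le_of_dvd (by norm_num) (orderOf_dvd_of_pow_eq_one this)
  omega

/-- from the permutation to the listing sequence -/
theorem exists_list (A : Set G) (π : Perm G) (h1 : ∀ g, g⁻¹ * π g ∈ A)
    (h2 : ∀ g h, π.SameCycle g h) :
    ∃ l : List G, l.length = Nat.card G ∧ (∀ a ∈ l, a ∈ A) ∧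
      (∀ i j : ℕ, 1 ≤ i → i < j → j ≤ Nat.card G → (l.take i).prod ≠ (l.take j).prod) ∧
      l.prod = 1 := by
  set n := Nat.card G with hn
  let f : ℕ → G := fun j => ((π ^ j) 1)⁻¹ * (π ^ (j + 1)) 1
  have hprod : ∀ i : ℕ, ((List.range i).map f).prod = (π ^ i) 1 := by
    intro i
    induction i with
    | zero => simp
    | succ i ih =>
      rw [List.range_succ, List.map_append, List.prod_append, ih]
      simp [f]
  have htake : ∀ i, i ≤ n → (((List.range n).map f).take i).prod = (π ^ i) 1 := by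
    intro i hi
    rw [← List.map_take, List.take_range, min_eq_left hi, hprod]
  -- the period
  have hit : ∀ i : ℕ, (π ^ i) 1 = (⇑π)^[i] 1 := fun i => by rw [Equiv.Perm.iterate_eq_pow]
  have hper : Function.minimalPeriod π 1 = n := by
    have hpos : 0 < Function.minimalPeriod π 1 := by
      apply Function.minimalPeriod_pos_of_mem_periodicPts
      exact ⟨orderOf π, (isOfFinOrder_of_finite π).orderOf_pos, by
        show (⇑π)^[orderOf π] 1 = 1
        rw [← hit, pow_orderOf_eq_one]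
        rfl⟩
    have hbij : Function.Bijective (fun i : Fin (Function.minimalPeriod π 1) => (⇑π)^[(i : ℕ)] (1 : G)) := by
      constructor
      · intro i j hij
        have := Function.iterate_injOn_Iio_minimalPeriod (f := π) (x := (1 : G))
          (Set.mem_Iio.2 i.2) (Set.mem_Iio.2 j.2) hij
        exact Fin.ext this
      · intro g
        obtain ⟨i, hi⟩ := (h2 1 g).exists_nat_pow_eq
        refine ⟨⟨i % Function.minimalPeriod π 1, Nat.mod_lt _ hpos⟩, ?_⟩
        show (⇑π)^[i % Function.minimalPeriod π 1] 1 = g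
        rw [Function.iterate_mod_minimalPeriod_eq, ← hit, hi]
    have := Nat.card_congr (Equiv.ofBijective _ hbij)
    rw [Nat.card_fin] at this
    exact this
  have hpn : (π ^ n) 1 = 1 := by
    rw [hit, ← hper]
    exact Function.iterate_minimalPeriod
  have hne : ∀ i j : ℕ, i < j → j < n → (π ^ i) (1 : G) ≠ (π ^ j) 1 := by
    intro i j hij hj h
    rw [hit, hit] at h
    have := Function.iterate_injOn_Iio_minimalPeriod (f := π) (x := (1 : G))
      (Set.mem_Iio.2 (by omega)) (Set.mem_Iio.2 (by omega)) h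
    omega
  refine ⟨(List.range n).map f, by simp, ?_, ?_, ?_⟩
  · intro a ha
    rw [List.mem_map] at ha
    obtain ⟨j, _, rfl⟩ := ha
    show ((π ^ j) 1)⁻¹ * (π ^ (j + 1)) 1 ∈ A
    rw [pow_succ', mul_apply]
    exact h1 _
  · intro i j hi hij hj
    rw [htake i (by omega), htake j hj]
    by_cases hjn : j = n
    · rw [hjn, hpn]
      have := hne 0 i (by omega) (by omega)
      simpa using this.symm
    · exact hne i j hij (by omega)
  · rw [hprod, hpn]

end Pool.Agent.R546.HC
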